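import Pool.Agent.ARH.St
import Pool.Agent.LGT.Hnd

/-!
# ARH / Bsk: letters of weight minus one generate (all `k`)

Helper20, for MP_0707f5_ag.
-/

set_option autoImplicit false

namespace Pool.Agent.ARH

open SpQ (Hd WReach)

/-- a letter of weight `-1` in `Λ` -/
private theorem neg_one {Γ : Type} [Group Γ] {k : ℕ} {Λ : Subgroup Γ} {m : ℕ}
    (hH : LGT.Hnd Λ m) (B : List (Hd Γ k)) (hB : 2 * m ≤ B.length) :
    ∃ y ∈ Λ, y ∈ SpQ.fc B (-1) := by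
  obtain ⟨J₁', h₁, h1, hk1⟩ := hH.wt (B.take m) (by rw [List.length_take]; omega)
  obtain ⟨J₂', h₂, h2, hk2⟩ := hH.wt (B.drop m) (by rw [List.length_drop]; omega)
  have hJ3 : WReach B (J₁' ++ SpQ.cj (SpQ.bd h₁)⁻¹ J₂' ++ [h₁, h₂]) := by
    have e1 : WReach B (J₁' ++ [h₁] ++ (J₂' ++ [h₂])) := by
      conv_lhs => rw [← List.take_append_drop m B]
      exact (h1.right _).trans (h2.left _)
    refine e1.trans ?_
    have e2 := (SpQ.move_right J₂' h₁).context J₁' [h₂]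
    simpa using e2
  obtain ⟨h₁', G, hG, hgood⟩ := SpQ.exists_good h₁ [h₂]
  have hGlen := hG.length_eq
  obtain ⟨h₂', rfl⟩ : ∃ q, G = [q] := List.length_eq_one_iff.1 (by simpa using hGlen)
  have hkl : SpQ.E [h₂'] ≤ Λ := by
    have e1 : SpQ.E [h₂'] ≤ SpQ.E [h₁', h₂'] := by
      rw [SpQ.E_cons h₁' [h₂']]
      exact le_sup_right
    refine e1.trans ?_
    rw [hG.E_eq, SpQ.E_cons]
    exact sup_le hk1 hk2
  have hB2 : WReach B (J₁' ++ SpQ.cj (SpQ.bd h₁)⁻¹ J₂' ++ [h₁'] ++ [h₂']) := by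
    have e1 := hJ3.trans (hG.left (J₁' ++ SpQ.cj (SpQ.bd h₁)⁻¹ J₂'))
    simpa using e1
  obtain ⟨u, hu⟩ := LGT.fc_good (hgood h₂' (by simp)) (-1)
  exact ⟨u, hkl (SpQ.fc_sub hu), SpQ.fc_mono ⟨_, hB2⟩ _ hu⟩

theorem bsk (hS : St_Bsd) : St_Bsk := by
  intro Γ _ k Λ _ ℓ J hi hJ
  obtain ⟨m, hm⟩ : ∃ m, m = 340 * (ℓ + 1) := ⟨_, rfl⟩
  obtain ⟨n, hn⟩ : ∃ n, n = 400 * (ℓ + 1) := ⟨_, rfl⟩
  have hH : LGT.Hnd Λ m := by
    rw [hm]
    exact LGT.hnd Λ ℓ hi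
  have hB : LGT.Bsd Λ n := by
    intro B hB
    rw [hn] at hB
    have h1 := hS Γ Λ ℓ B hi hB
    have e : (-1 : ZMod 1) = 0 := Subsingleton.elim _ _
    rwa [e] at h1
  have h1 : n ≤ J.length := by omega
  have h2 : 2 * m + 1 ≤ J.length := by omega
  exact ⟨LGT.bsk hB hH J h1 h2, neg_one hH J (by omega), hH.zero J (by omega)⟩

end Pool.Agent.ARH
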