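import Pool.Agent.EKH.Gro

/-!
# Campaign ARH: blocks of handles are moved; orbits of conjugate blocks (helper59)
-/

set_option autoImplicit false

namespace Pool.Agent.ARH

open SpQ (Hd WReach WStep)
open EKH (Orb)

section mov

variable {Γ : Type} [Group Γ] {k : ℕ}

/-- the product of the boundaries of the handles -/
def bds : List (Hd Γ k) → Γ
  | [] => 1
  | h :: X => SpQ.bd h * bds X

theorem bds_mem (X : List (Hd Γ k)) : bds X ∈ SpQ.E X := by
  induction X with
  | nil => exact Subgroup.one_mem _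
  | cons h X ih =>
    rw [bds, SpQ.E_cons]
    refine Subgroup.mul_mem _ ?_ ?_
    · exact (le_sup_left : SpQ.E [h] ≤ _) (SpQ.bd_mem_E (List.mem_singleton.2 rfl))
    · exact (le_sup_right : SpQ.E X ≤ _) ih

theorem cj1_cj1 (u v : Γ) (h : Hd Γ k) : SpQ.cj1 u (SpQ.cj1 v h) = SpQ.cj1 (v * u) h := by
  unfold SpQ.cj1
  simp only [mul_inv_rev, mul_assoc]

theorem scj_scj (u v : Γ) (X : List (Hd Γ k)) : SpQ.cj u (SpQ.cj v X) = SpQ.cj (v * u) X := by
  unfold SpQ.cj
  rw [List.map_map]
  refine List.map_congr_left fun h _ => ?_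
  exact cj1_cj1 u v h

theorem scj_one (X : List (Hd Γ k)) : SpQ.cj (1 : Γ) X = X := by
  unfold SpQ.cj
  refine (List.map_congr_left fun h _ => ?_).trans (List.map_id X)
  unfold SpQ.cj1
  simp

/-- the block `S` moves to the left unchanged, the block `X` is conjugated -/
theorem block_left (X S : List (Hd Γ k)) :
    WReach (X ++ S) (S ++ SpQ.cj (bds S) X) := by
  induction S generalizing X with
  | nil =>
    rw [bds, scj_one, List.append_nil, List.nil_append]
    exact WReach.refl _
  | cons s S ih =>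
    have h1 : WReach (X ++ s :: S) (s :: SpQ.cj (SpQ.bd s) X ++ S) := by
      have h2 := (SpQ.move_left X s).right S
      rwa [List.append_assoc, List.singleton_append] at h2
    have h3 : WReach (s :: SpQ.cj (SpQ.bd s) X ++ S)
        (s :: (S ++ SpQ.cj (bds S) (SpQ.cj (SpQ.bd s) X))) := by
      have h4 := (ih (SpQ.cj (SpQ.bd s) X)).left [s]
      simpa only [List.singleton_append, List.cons_append, List.nil_append] using h4
    rw [scj_scj] at h3
    rw [bds, List.cons_append]
    exact h1.trans h3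

/-- the block `X` moves to the right unchanged, the block `S` is conjugated -/
theorem block_right (X S : List (Hd Γ k)) :
    WReach (X ++ S) (SpQ.cj (bds X)⁻¹ S ++ X) := by
  induction X generalizing S with
  | nil =>
    rw [bds, inv_one, scj_one, List.append_nil, List.nil_append]
    exact WReach.refl _
  | cons x X ih =>
    have h1 : WReach (x :: X ++ S) (x :: (SpQ.cj (bds X)⁻¹ S ++ X)) := by
      have h2 := (ih S).left [x]
      simpa only [List.singleton_append, List.cons_append, List.nil_append] using h2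
    have h3 : WReach (x :: (SpQ.cj (bds X)⁻¹ S ++ X))
        (SpQ.cj (SpQ.bd x)⁻¹ (SpQ.cj (bds X)⁻¹ S) ++ x :: X) := by
      have h4 := (SpQ.move_right (SpQ.cj (bds X)⁻¹ S) x).right X
      rwa [List.cons_append, List.append_assoc, List.singleton_append] at h4
    rw [scj_scj, ← mul_inv_rev] at h3
    rw [bds]
    exact h1.trans h3

/-- a sublist moves to the left end unchanged -/
theorem sub_move {S A : List (Hd Γ k)} (h : S.Sublist A) : ∃ T, WReach A (S ++ T) := by
  induction h with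
  | slnil => exact ⟨[], WReach.refl _⟩
  | @cons S A a _ ih =>
    obtain ⟨T, hT⟩ := ih
    refine ⟨SpQ.cj (bds S) [a] ++ T, ?_⟩
    have h1 := (block_left [a] S).right T
    have h2 := hT.left [a]
    rw [List.singleton_append, List.singleton_append] at h2
    refine h2.trans ?_
    simpa only [List.append_assoc, List.singleton_append, List.cons_append, List.nil_append] using h1
  | @cons_cons S A a _ ih =>
    obtain ⟨T, hT⟩ := ih
    refine ⟨T, ?_⟩
    have h2 := hT.left [a]
    simpa only [List.singleton_append, List.cons_append, List.nil_append] using h2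

theorem mem_E_cj {u z : Γ} {X : List (Hd Γ k)} :
    z ∈ SpQ.E (SpQ.cj u X) ↔ u * z * u⁻¹ ∈ SpQ.E X := by
  have key : ∀ (u : Γ) (X : List (Hd Γ k)),
      SpQ.E (SpQ.cj u X) ≤ (SpQ.E X).comap (MulAut.conj u).toMonoidHom := by
    intro u X
    rw [SpQ.E_le]
    intro h hh
    obtain ⟨h', hh', rfl⟩ := List.mem_map.1 hh
    constructor
    · rw [Subgroup.mem_comap]
      have e : (MulAut.conj u).toMonoidHom (SpQ.cj1 u h').1.1 = h'.1.1 := by
        simp [SpQ.cj1, mul_assoc]
      rw [e]
      exact SpQ.fst_mem_E hh'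
    · rw [Subgroup.mem_comap]
      have e : (MulAut.conj u).toMonoidHom (SpQ.cj1 u h').1.2 = h'.1.2 := by
        simp [SpQ.cj1, mul_assoc]
      rw [e]
      exact SpQ.snd_mem_E hh'
  constructor
  · intro hz
    exact key u X hz
  · intro hz
    have h1 := key u⁻¹ (SpQ.cj u X)
    rw [scj_scj, mul_inv_cancel, scj_one] at h1
    have h2 := h1 hz
    rw [Subgroup.mem_comap] at h2
    have e : (MulAut.conj u⁻¹).toMonoidHom (u * z * u⁻¹) = z := by
      simp [mul_assoc]
    rwa [e] at h2

theorem E_cj_le {u : Γ} {X : List (Hd Γ k)} {G : Subgroup Γ} (hX : SpQ.E X ≤ G) (hu : u ∈ G) :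
    SpQ.E (SpQ.cj u X) ≤ G := by
  intro z hz
  have h1 := hX (mem_E_cj.1 hz)
  have e : z = u⁻¹ * (u * z * u⁻¹) * u := by group
  rw [e]
  exact G.mul_mem (G.mul_mem (G.inv_mem hu) h1) hu

end mov

section orb

variable {Γ : Type} [Group Γ] {Λ : Subgroup Γ}

theorem orb_trans {C D G : Subgroup Γ} (h : Orb Λ C D) (h' : Orb Λ D G) : Orb Λ C G := by
  intro g hg
  obtain ⟨x, hx, h1⟩ := h' g hg
  obtain ⟨y, hy, h2⟩ := h x hx
  refine ⟨y, hy, ?_⟩
  have e : y⁻¹ * g = y⁻¹ * x * (x⁻¹ * g) := by group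
  rw [e]
  exact Λ.mul_mem h2 h1

theorem orb_self (G : Subgroup Γ) : Orb Λ G G := fun g hg => ⟨g, hg, by
  rw [inv_mul_cancel]
  exact Λ.one_mem⟩

/-- a transitive block stays transitive under conjugation -/
theorem orb_cj {k : ℕ} {X : List (Hd Γ k)} {G : Subgroup Γ} {u : Γ} (h : Orb Λ (SpQ.E X) G)
    (hu : u ∈ G) : Orb Λ (SpQ.E (SpQ.cj u X)) G := by
  intro g hg
  obtain ⟨a, ha, h1⟩ := h (u * g) (G.mul_mem hu hg)
  obtain ⟨b, hb, h2⟩ := h u hu
  refine ⟨u⁻¹ * (a * b⁻¹) * u, ?_, ?_⟩
  · rw [mem_E_cj]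
    have e : u * (u⁻¹ * (a * b⁻¹) * u) * u⁻¹ = a * b⁻¹ := by group
    rw [e]
    exact Subgroup.mul_mem _ ha (Subgroup.inv_mem _ hb)
  · have e : (u⁻¹ * (a * b⁻¹) * u)⁻¹ * g = (b⁻¹ * u)⁻¹ * (a⁻¹ * (u * g)) := by group
    rw [e]
    exact Λ.mul_mem (Λ.inv_mem h2) h1

end orb

end Pool.Agent.ARH
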