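import Pool.Agent.ARH.St
import Pool.Agent.ARH.Bmv
import Pool.Agent.EKH.Gcn
import Pool.Agent.LGC.Vek

/-!
# The handles become full, for a subgroup of a normal subgroup

Helper33, for MP_0707f5_ag (tower extension of helper41).
-/

set_option autoImplicit false

namespace Pool.Agent.ARH

open Module
open SpQ (Hd WReach mapH)
open EKL (alg Fl Ir)
open EKH (Orb pos mem_pos E_le_iff)
open LGC (It hl GI IReach GI_append_hl hl_append Kl Kl_list)

section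
variable {Γ : Type} [Group Γ] {N Λ : Subgroup Γ}

theorem mapH_append {Δ : Type} [Group Δ] (f : Δ →* Γ) (L M : List (Hd Δ 1)) :
    mapH f (L ++ M) = mapH f L ++ mapH f M := by
  unfold SpQ.mapH
  rw [List.map_append]

theorem mapH_length {Δ : Type} [Group Δ] (f : Δ →* Γ) (L : List (Hd Δ 1)) :
    (mapH f L).length = L.length := by
  unfold SpQ.mapH
  rw [List.length_map]

theorem orb_map {L M : List (Hd N 1)} (h : Orb (Λ.subgroupOf N) (SpQ.E L) (SpQ.E M)) :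
    Orb Λ (SpQ.E (mapH N.subtype L)) (SpQ.E (mapH N.subtype M)) := by
  rw [LGC.E_mapH, LGC.E_mapH]
  rintro _ ⟨g, hg, rfl⟩
  obtain ⟨a, ha, h1⟩ := h g hg
  exact ⟨N.subtype a, ⟨a, ha, rfl⟩, h1⟩

theorem kl_mapH (L : List (Hd N 1)) : ∀ h ∈ mapH N.subtype L, Kl N h := by
  intro h hh
  obtain ⟨q, -, rfl⟩ := List.mem_map.1 hh
  exact ⟨q.1.1.2, q.1.2.2⟩

theorem get_map' {α β : Type} (f : α → β) (L : List α) (M : List β) (hM : M = L.map f)
    (i : Fin M.length) (j : Fin L.length) (hj : (j : ℕ) = (i : ℕ)) : M.get i = f (L.get j) := by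
  subst hM
  obtain ⟨i, hi⟩ := i
  obtain ⟨j, hj'⟩ := j
  simp only at hj
  subst hj
  simp

/-- the handles at the given positions, under a homomorphism -/
theorem pos_mapH (L : List (Hd N 1)) (I : Finset (Fin (mapH N.subtype L).length)) :
    ∃ I' : Finset (Fin L.length), I'.card = I.card ∧
      SpQ.E (pos (mapH N.subtype L) I) ≤ (SpQ.E (pos L I')).map N.subtype := by
  let e : Fin (mapH N.subtype L).length ≃ Fin L.length := finCongr (mapH_length N.subtype L)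
  refine ⟨I.map e.toEmbedding, Finset.card_map _, ?_⟩
  rw [E_le_iff]
  intro q hq
  obtain ⟨i, hi, rfl⟩ := mem_pos.1 hq
  have h1 : L.get (e i) ∈ pos L (I.map e.toEmbedding) :=
    mem_pos.2 ⟨e i, Finset.mem_map.2 ⟨i, hi, rfl⟩, rfl⟩
  have h2 := E_le_iff.1 le_rfl _ h1
  have h3 : SpQ.E [(mapH N.subtype L).get i] = (SpQ.E [L.get (e i)]).map N.subtype := by
    rw [← LGC.E_mapH]
    have he : ((e i : Fin L.length) : ℕ) = (i : ℕ) := rfl
    have h4 := get_map' _ L (mapH N.subtype L) rfl i (e i) he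
    rw [h4]
    rfl
  rw [h3]
  exact Subgroup.map_mono h2

variable {K V₁ V₂ : Type} [Field K] [IsAlgClosed K] [AddCommGroup V₁]
  [Module K V₁] [FiniteDimensional K V₁] [Nontrivial V₁] [AddCommGroup V₂] [Module K V₂]
  [FiniteDimensional K V₂] [Nontrivial V₂]

/-- **the handles become full** -/
theorem spn (hA : LGC.St_All) (hG : LGC.St_Gek) (hM : St_Msk) (hQ : St_Qbl) [N.Normal]
    [Λ.FiniteIndex] (R : Λ →* Module.End K V₁ × Module.End K V₂) (r ℓ : ℕ)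
    (X : List (It Γ 1)) (B : List (Hd Γ 1)) (hi : Ir R) (hd₁ : finrank K V₁ ≤ r)
    (hd₂ : finrank K V₂ ≤ r) (hℓ : Λ.relIndex N ≤ 2 ^ ℓ) (hB : Mm r ℓ ≤ B.length)
    (hk : ∀ h ∈ B, Kl N h) (hT : Orb Λ (SpQ.E B) (N ⊓ GI (X ++ hl B)))
    (hF : Fl R (N ⊓ GI (X ++ hl B))) :
    ∃ (X' : List (It Γ 1)) (B' : List (Hd Γ 1)), IReach (X ++ hl B) (X' ++ hl B') ∧
      B'.length = B.length ∧ (∀ h ∈ B', Kl N h) ∧ Fl R (SpQ.E B') := by
  have hr₁ : 0 < finrank K V₁ := finrank_pos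
  have hr₂ : 0 < finrank K V₂ := finrank_pos
  set G := N ⊓ GI (X ++ hl B) with hGdef
  have hBN : SpQ.E B ≤ N := Kl_list.1 hk
  have hBG : SpQ.E B ≤ G := le_inf hBN (by
    rw [GI_append_hl]
    exact le_sup_right)
  unfold Mm at hB
  -- the mask, in the group `N`
  obtain ⟨D, hD⟩ := LGC.exists_mapH N B hk
  have hDl : D.length = B.length := by
    rw [← hD, mapH_length]
  obtain ⟨L₀', Q', hw', hQl', hQo', hmask'⟩ := hM N (Λ.subgroupOf N) ℓ (8 * r) D hℓ (by omega)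
  obtain ⟨L₀, hL₀⟩ : ∃ L₀, L₀ = mapH N.subtype L₀' := ⟨_, rfl⟩
  obtain ⟨Q, hQd⟩ : ∃ Q, Q = mapH N.subtype Q' := ⟨_, rfl⟩
  have hw : WReach B (L₀ ++ Q) := by
    have h1 := SpQ.mapH_reach N.subtype hw'
    rwa [hD, mapH_append, ← hL₀, ← hQd] at h1
  have hQo : Orb Λ (SpQ.E Q) (SpQ.E B) := by
    have h1 := orb_map hQo'
    rwa [hD, ← hQd] at h1
  have hkL : ∀ h ∈ L₀, Kl N h := by
    rw [hL₀]
    exact kl_mapH L₀'
  have hkQ : ∀ h ∈ Q, Kl N h := by
    rw [hQd]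
    exact kl_mapH Q'
  have hEB : SpQ.E L₀ ⊔ SpQ.E Q = SpQ.E B := by
    rw [← SpQ.E_append]
    exact hw.E_eq
  have hlw : L₀.length + Q.length = B.length := by
    have h1 := hw.length_eq
    rwa [List.length_append] at h1
  have hQB : SpQ.E Q ≤ SpQ.E B := by
    rw [← hEB]
    exact le_sup_right
  have hLB : SpQ.E L₀ ≤ SpQ.E B := by
    rw [← hEB]
    exact le_sup_left
  have hQG : Orb Λ (SpQ.E Q) G := orb_trans hQo hT
  have hGI1 : GI (X ++ hl Q ++ hl L₀) = GI (X ++ hl B) := by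
    rw [GI_append_hl, GI_append_hl, GI_append_hl, sup_assoc, sup_comm (SpQ.E Q), hEB]
  have hCG : SpQ.E Q ⊔ (N ⊓ GI (X ++ hl Q ++ hl L₀)) = G := by
    rw [hGI1]
    exact sup_eq_right.2 (hQB.trans hBG)
  -- a bounded number of handles
  obtain ⟨I, hI1, hI2⟩ := EKH.essN (N := N) hi (SpQ.E Q) (X ++ hl Q) L₀ hkL
    (by
      rw [hCG]
      exact hQG)
    (by
      rw [hCG]
      exact hF)
  subst hL₀
  obtain ⟨I', hI'1, hI'2⟩ := pos_mapH L₀' I
  obtain ⟨A', J', hAJ', hIA', hJo', hJl'⟩ := hmask' I' (by omega)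
  obtain ⟨Q₀', B₃', Q₁', hJw', hQ₀l', hQ₁l', hQ₀o', hQ₁o'⟩ := hQ N (Λ.subgroupOf N) ℓ J' hℓ hJl'
  obtain ⟨A, hAd⟩ : ∃ A, A = mapH N.subtype A' := ⟨_, rfl⟩
  obtain ⟨J, hJd⟩ : ∃ J, J = mapH N.subtype J' := ⟨_, rfl⟩
  obtain ⟨Q₀, hQ₀d⟩ : ∃ Q₀, Q₀ = mapH N.subtype Q₀' := ⟨_, rfl⟩
  obtain ⟨B₃, hB₃d⟩ : ∃ B₃, B₃ = mapH N.subtype B₃' := ⟨_, rfl⟩
  obtain ⟨Q₁, hQ₁d⟩ : ∃ Q₁, Q₁ = mapH N.subtype Q₁' := ⟨_, rfl⟩
  have hAJ : WReach (mapH N.subtype L₀') (A ++ J) := by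
    have h1 := SpQ.mapH_reach N.subtype hAJ'
    rwa [mapH_append, ← hAd, ← hJd] at h1
  have hJw : WReach J (Q₀ ++ B₃ ++ Q₁) := by
    have h1 := SpQ.mapH_reach N.subtype hJw'
    rwa [mapH_append, mapH_append, ← hJd, ← hQ₀d, ← hB₃d, ← hQ₁d] at h1
  have hIA : SpQ.E (pos (mapH N.subtype L₀') I) ≤ SpQ.E A := by
    refine hI'2.trans ?_
    rw [hAd, LGC.E_mapH]
    exact Subgroup.map_mono hIA'
  have hJo : Orb Λ (SpQ.E J) (SpQ.E B) := by
    have h1 := orb_map hJo'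
    rwa [hD, ← hJd] at h1
  have hQ₁o : Orb Λ (SpQ.E Q₁) (SpQ.E J) := by
    have h1 := orb_map hQ₁o'
    rwa [← hQ₁d, ← hJd] at h1
  have hQ₁G : Orb Λ (SpQ.E Q₁) G := orb_trans (orb_trans hQ₁o hJo) hT
  -- the moves
  set M := A ++ (Q₀ ++ B₃) ++ Q with hMd
  set S := SpQ.cj (bds Q) Q₁ with hS
  have hw1 : WReach B (M ++ S) := by
    have h1 : WReach (mapH N.subtype L₀' ++ Q) (A ++ J ++ Q) := hAJ.right Q
    have h2 : WReach (A ++ J ++ Q) (A ++ (Q₀ ++ B₃ ++ Q₁) ++ Q) := (hJw.left A).right Q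
    have h3 : WReach (A ++ (Q₀ ++ B₃) ++ (Q₁ ++ Q)) (A ++ (Q₀ ++ B₃) ++ (Q ++ S)) :=
      (block_left Q₁ Q).left (A ++ (Q₀ ++ B₃))
    have e : A ++ (Q₀ ++ B₃) ++ (Q₁ ++ Q) = A ++ (Q₀ ++ B₃ ++ Q₁) ++ Q := by
      simp only [List.append_assoc]
    rw [e] at h3
    have e2 : A ++ (Q₀ ++ B₃) ++ (Q ++ S) = M ++ S := by
      rw [hMd]
      simp only [List.append_assoc]
    rw [e2] at h3
    exact ((hw.trans h1).trans h2).trans h3
  have hMS : SpQ.E M ⊔ SpQ.E S = SpQ.E B := by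
    rw [← SpQ.E_append]
    exact hw1.E_eq
  have hMB : SpQ.E M ≤ SpQ.E B := by
    rw [← hMS]
    exact le_sup_left
  have hSB : SpQ.E S ≤ SpQ.E B := by
    rw [← hMS]
    exact le_sup_right
  have hkM : ∀ h ∈ M, Kl N h := Kl_list.2 (hMB.trans hBN)
  have hkS : ∀ h ∈ S, Kl N h := Kl_list.2 (hSB.trans hBN)
  have hGM : N ⊓ GI (X ++ hl M) ≤ G := by
    refine inf_le_inf le_rfl ?_
    rw [GI_append_hl, GI_append_hl]
    exact sup_le_sup le_rfl hMB
  have hlMS : M.length + S.length = B.length := by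
    have h1 := hw1.length_eq
    rwa [List.length_append] at h1
  have hSl : S.length = k₀ ℓ := by
    rw [hS]
    unfold SpQ.cj
    rw [List.length_map, hQ₁d, mapH_length, hQ₁l']
  -- the middle is full
  have hMF : Fl R (N ⊓ GI (X ++ hl M)) := by
    refine hI2.mono (sup_le (le_inf (hQB.trans hBN) ?_) (inf_le_inf le_rfl ?_))
    · rw [GI_append_hl, hMd, SpQ.E_append]
      exact le_trans le_sup_right le_sup_right
    · rw [GI_append_hl, GI_append_hl, GI_append_hl, hMd, SpQ.E_append, SpQ.E_append]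
      refine sup_le (sup_le le_sup_left (le_trans le_sup_right le_sup_right)) ?_
      exact hIA.trans (le_trans (le_trans le_sup_left le_sup_left) le_sup_right)
  have hSG : SpQ.E S ≤ G := hSB.trans hBG
  have hOS : Orb Λ (SpQ.E S) G := orb_cj hQ₁G ((hQB.trans hBG) (bds_mem Q))
  have hle : SpQ.E S ⊔ (N ⊓ GI (X ++ hl M)) ≤ G := sup_le hSG hGM
  unfold k₀ at hSl
  obtain ⟨X', B', P, hr, -, hk', hBl, hPl, -, hF₁⟩ := EKH.growN hA hG hi (SpQ.E S) X M hkM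
    (hOS.mono le_rfl hle) (hMF.mono le_sup_right) (by omega)
  refine ⟨X', B' ++ P ++ S, ?_, ?_, ?_, hF₁.mono ?_⟩
  · have h1 := IReach.of_wreach' hw1 X []
    rw [List.append_nil, List.append_nil] at h1
    refine h1.trans ?_
    have h2 := hr.right (hl S)
    have a1 : X ++ hl M ++ hl S = X ++ hl (M ++ S) := by
      rw [hl_append M S, List.append_assoc]
    have a2 : X' ++ hl (B' ++ P) ++ hl S = X' ++ hl (B' ++ P ++ S) := by
      rw [hl_append (B' ++ P) S, List.append_assoc]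
    rwa [a1, a2] at h2
  · rw [List.length_append, List.length_append]
    omega
  · intro h hh
    rcases List.mem_append.1 hh with hh | hh
    · exact hk' h hh
    · exact hkS h hh
  · rw [SpQ.E_append, SpQ.E_append]
    exact sup_le le_sup_right (le_trans le_sup_right le_sup_left)

end

end Pool.Agent.ARH
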