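import Pool.Agent.ARH.StN
import Pool.Agent.ARH.Spn

/-!
# The beginning, for a subgroup of a normal subgroup

Helper33, for MP_0707f5_ag (tower extension of helper41).
-/

set_option autoImplicit false

namespace Pool.Agent.ARH

open Module
open SpQ (Hd)
open EKL (Fl Ir)
open LGC (It hl GI IReach Kl)

/-- **In1** -/
theorem in1 (hA : LGC.St_All) (hG : LGC.St_Gek) (hM : St_Msk) (hQ : St_Qbl) (hR : St_RedN) :
    St_In1 := by
  intro K V₁ V₂ _ _ _ _ _ _ _ _ _ _ Γ _ N Λ _ _ R r ℓ X B hi hd₁ hd₂ hΛN hℓ hk hB hGI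
  have hr₁ : 0 < finrank K V₁ := finrank_pos
  have h100 : 100 * (ℓ + 1) ≤ B.length := by
    unfold Mm at hB
    omega
  obtain ⟨X₁, B₁, h1, h2, h3, h4⟩ := hR Γ N Λ ℓ X B hℓ hk h100 hGI
  have h5 : GI (X₁ ++ hl B₁) = ⊤ := by
    rw [← hGI]
    exact h1.GI_eq
  have h6 : N ⊓ GI (X₁ ++ hl B₁) = N := by rw [h5, inf_top_eq]
  obtain ⟨X', B', g1, g2, g3, g4⟩ := spn hA hG hM hQ R r ℓ X₁ B₁ hi hd₁ hd₂ hℓ (by rwa [h2]) h3
    (by rwa [h6]) (by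
      rw [h6]
      unfold EKL.Fl
      rw [Subgroup.subgroupOf_eq_top.2 hΛN])
  exact ⟨X', B', h1.trans g1, g2.trans h2, g3, g4⟩

end Pool.Agent.ARH
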