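import Pool.Agent.LGT.Bsk
import Pool.Agent.LGP.Aut

/-!
# Campaign ARH: handles can be moved into a subgroup

Helper21, for MP_0707f5_ag.  `H` is any subgroup of the fundamental group for which `LGT.Hnd H m`
holds: every list of at least `m` handles reaches a list with a handle in `H`.
-/

set_option autoImplicit false

namespace Pool.Agent.ARH

open Helper12.Sc
open SpQ (Hd WStep WReach bare)
open LGP (F ga gb gx x0 MC MR Mv stdL stdM)

/-- `h` handles -/
theorem kil_many {Γ : Type} [Group Γ] {Λ : Subgroup Γ} {m : ℕ} (hH : LGT.Hnd Λ m) (h : ℕ) :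
    ∀ B : List (Hd Γ 1), h + m ≤ B.length → ∃ K B' : List (Hd Γ 1), WReach B (K ++ B') ∧
      K.length = h ∧ ∀ p ∈ K, p.1.1 ∈ Λ ∧ p.1.2 ∈ Λ := by
  induction h with
  | zero => exact fun B _ => ⟨[], B, WReach.refl B, rfl, by simp⟩
  | succ h ih =>
    intro B hB
    obtain ⟨B₁, p, h1, h2, h3⟩ := hH B (by omega)
    have hl := h1.length_eq
    rw [List.length_append, List.length_singleton] at hl
    have h4 := h1.trans (SpQ.move_left B₁ p)
    obtain ⟨K, B', h5, h6, h7⟩ := ih (SpQ.cj (SpQ.bd p) B₁) (by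
      rw [SpQ.cj_length]
      omega)
    refine ⟨p :: K, B', h4.trans (h5.left [p]), by simp [h6], ?_⟩
    intro q hq
    rcases List.mem_cons.1 hq with rfl | hq
    · exact ⟨h2, h3⟩
    · exact h7 q hq

/-- moves of the handles are mapping classes -/
theorem exists_mc {g n : ℕ} {B : List (Hd (F g n) 1)}
    (h : WReach ((stdL g n).map fun p => ((p, (0, 0)) : Hd (F g n) 1)) B) :
    ∃ φ ∈ MC g n, φ (x0 g n) = x0 g n ∧ (stdL g n).map (Prod.map φ φ) = bare B := by
  have h1 : ∀ L L' : List (Hd (F g n) 1), WReach L L' →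
      MR (bare L, stdM g n) (bare L', stdM g n) := by
    intro L L' hL
    induction hL with
    | refl => exact Relation.ReflTransGen.refl
    | tail _ hs ih => exact Relation.ReflTransGen.tail ih (Mv.st _ _ _ (SpQ.step_bare hs))
  have h2 := h1 _ _ h
  have e : bare ((stdL g n).map fun p => ((p, (0, 0)) : Hd (F g n) 1)) = stdL g n := by
    unfold bare
    rw [List.map_map]
    exact List.map_id _
  rw [e] at h2
  obtain ⟨φ, h3, h4, h5, -⟩ := LGP.thm_Aut g n _ _ h2
  exact ⟨φ, h3, h4, h5⟩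

/-- **`h` handles can be moved into `H`** -/
theorem kil {g n h m : ℕ} (H : Subgroup (F g n)) (hH : LGT.Hnd H m) (hg : h + m ≤ g) :
    ∃ θ ∈ MC g n, ∀ i : Fin g, (i : ℕ) < h → θ (ga i) ∈ H ∧ θ (gb i) ∈ H := by
  obtain ⟨K, B', h1, h2, h3⟩ := kil_many hH h
    ((stdL g n).map fun p => ((p, (0, 0)) : Hd (F g n) 1)) (by simpa [stdL] using hg)
  obtain ⟨θ, hθ, -, h4⟩ := exists_mc h1
  refine ⟨θ, hθ, fun i hi => ?_⟩
  have h5 : ((stdL g n).map (Prod.map θ θ))[(i : ℕ)]? = some (θ (ga i), θ (gb i)) := by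
    simp [stdL]
  rw [h4] at h5
  unfold SpQ.bare at h5
  rw [List.map_append, List.getElem?_append_left (by rw [List.length_map, h2]; exact hi),
    List.getElem?_map] at h5
  obtain ⟨p, hp, hq⟩ := Option.map_eq_some_iff.1 h5
  obtain ⟨h6, h7⟩ := h3 p (List.mem_of_getElem? hp)
  rw [hq] at h6 h7
  exact ⟨h6, h7⟩

end Pool.Agent.ARH
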