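import Pool.Agent.LGU.St
import Pool.Agent.PWE.Orb
import Pool.Agent.PWE.Shf
import Pool.Agent.PWE.Gnv
import Pool.Agent.PWE.Dch
import Pool.Agent.PWE.Mrg

/-!
# Campaign ARH: two transitive blocks (`St_Qbl`), helper59
-/

set_option autoImplicit false

open scoped BigOperators

namespace Pool.Agent.ARH

open Pool.Agent.PW Pool.Agent.PWM Pool.Agent.PWB Pool.Agent.PWX Pool.Agent.PWF Pool.Agent.PWL
  Pool.Agent.PWY Pool.Agent.PWE Pool.Agent.LGU
open SpQ (Hd WReach)
open EKH (Orb)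
open scoped Classical

/-- the first block is transitive, the last block is transitive -/
theorem qbl_cls {G : Type} [Group G] [Fintype G] {Ω : Type} [Fintype Ω] [MulAction G Ω]
    (M : List (G × G)) (l k : ℕ) (hk : k = 6 * (l + 1)) (hΩ : Fintype.card Ω ≤ 2 ^ l)
    (hM : 2 * k ≤ M.length) :
    ∃ L ∈ cls M, no Ω (L.take k) ≤ no Ω M ∧ no Ω (L.drop (M.length - k)) ≤ no Ω M := by
  have h1 : (((cls M).filter fun L => ¬ no Ω (L.take k) ≤ no Ω M).card : ℝ) ≤
      (7 / 8) ^ k * Fintype.card Ω * (cls M).card :=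
    thm_Orb thm_Gnv thm_Dch thm_Mrg M k (by omega)
  have h2 : (((cls M).filter fun L => ¬ no Ω (L.drop (M.length - k)) ≤ no Ω M).card : ℝ) ≤
      (7 / 8) ^ k * Fintype.card Ω * (cls M).card := by
    refine le_trans (le_of_eq ?_) h1
    have h3 := thm_Shf M (M.length - k) k (by omega)
      fun L => if ¬ no Ω L ≤ no Ω M then (1 : ℝ) else 0
    have h4 : (((cls M).filter fun L => ¬ no Ω (L.drop (M.length - k)) ≤ no Ω M).card : ℝ) =
        ∑ L ∈ cls M, if ¬ no Ω ((L.drop (M.length - k)).take k) ≤ no Ω M then (1 : ℝ) else 0 := by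
      rw [← Finset.sum_boole]
      refine Finset.sum_congr rfl fun L hL => ?_
      have h5 : (L.drop (M.length - k)).take k = L.drop (M.length - k) := by
        apply List.take_of_length_le
        rw [List.length_drop, len_cls hL]
        omega
      rw [h5]
    have h6 : (((cls M).filter fun L => ¬ no Ω (L.take k) ≤ no Ω M).card : ℝ) =
        ∑ L ∈ cls M, if ¬ no Ω (L.take k) ≤ no Ω M then (1 : ℝ) else 0 := by
      rw [Finset.sum_boole]
    rw [h4, h6]
    exact h3
  have hc : (0 : ℝ) < (cls M).card := by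
    have := card_cls_pos M
    exact_mod_cast this
  have hΩ' : (Fintype.card Ω : ℝ) ≤ 2 ^ l := by exact_mod_cast hΩ
  have hnum : ((7 : ℝ) / 8) ^ k * Fintype.card Ω < 1 / 2 := by
    have e : ((7 : ℝ) / 8) ^ k = (((7 : ℝ) / 8) ^ 6) ^ (l + 1) := by rw [← pow_mul, hk]
    have h7 : ((7 : ℝ) / 8) ^ 6 ≤ 9 / 20 := by norm_num
    have h8 : (((7 : ℝ) / 8) ^ 6) ^ (l + 1) ≤ (9 / 20) ^ (l + 1) :=
      pow_le_pow_left₀ (by positivity) h7 _
    have h9 : ((9 : ℝ) / 20) ^ (l + 1) * 2 ^ l = 9 / 20 * (9 / 10) ^ l := by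
      rw [pow_succ, mul_comm (((9 : ℝ) / 20) ^ l), mul_assoc, ← mul_pow]
      norm_num
    have h10 : ((9 : ℝ) / 10) ^ l ≤ 1 := pow_le_one₀ (by norm_num) (by norm_num)
    calc ((7 : ℝ) / 8) ^ k * Fintype.card Ω ≤ (9 / 20) ^ (l + 1) * 2 ^ l := by
          rw [e]
          exact mul_le_mul h8 hΩ' (by positivity) (by positivity)
      _ = 9 / 20 * (9 / 10) ^ l := h9
      _ ≤ 9 / 20 := by linarith
      _ < 1 / 2 := by norm_num
  by_contra hcon
  push Not at hcon
  have hcov : cls M ⊆ ((cls M).filter fun L => ¬ no Ω (L.take k) ≤ no Ω M) ∪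
      ((cls M).filter fun L => ¬ no Ω (L.drop (M.length - k)) ≤ no Ω M) := by
    intro L hL
    rw [Finset.mem_union, Finset.mem_filter, Finset.mem_filter]
    by_cases h : no Ω (L.take k) ≤ no Ω M
    · exact Or.inr ⟨hL, not_le.2 (hcon L hL h)⟩
    · exact Or.inl ⟨hL, h⟩
  have hle : ((cls M).card : ℝ) ≤
      (((cls M).filter fun L => ¬ no Ω (L.take k) ≤ no Ω M).card : ℝ) +
      (((cls M).filter fun L => ¬ no Ω (L.drop (M.length - k)) ≤ no Ω M).card : ℝ) := by
    exact_mod_cast (Finset.card_le_card hcov).trans (Finset.card_union_le _ _)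
  nlinarith

theorem thm_Qbl (hL : St_Lgw) (hO : St_Orn) : St_Qbl := by
  intro Γ _ Λ _ ℓ J hℓ hJ
  have hfin : Finite (Γ ⧸ Λ) := Subgroup.finite_quotient_of_finiteIndex
  letI : Fintype (Γ ⧸ Λ) := Fintype.ofFinite _
  have hcard : Fintype.card (Γ ⧸ Λ) ≤ 2 ^ ℓ := by
    rw [← Nat.card_eq_fintype_card]
    exact hℓ
  set f := MulAction.toPermHom Γ (Γ ⧸ Λ) with hf
  set M := pr f J with hM
  have hMl : M.length = J.length := by rw [hM, pr, List.length_map]
  obtain ⟨L, hLM, h1, h2⟩ := qbl_cls (Ω := Γ ⧸ Λ) M ℓ (k₀ ℓ) rfl hcard (by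
    rw [hMl]
    exact hJ)
  obtain ⟨J', hw, hpr⟩ := hL f J L (mem_cls.1 hLM)
  have hlen : J'.length = J.length := hw.length_eq
  set k := k₀ ℓ with hk
  have hsplit : J' = J'.take k ++ (J'.drop k).take (J.length - 2 * k) ++
      J'.drop (J.length - k) := by
    have e1 : J'.drop (J.length - k) = (J'.drop k).drop (J.length - 2 * k) := by
      rw [List.drop_drop]
      congr 1
      omega
    rw [e1, List.append_assoc, List.take_append_drop, List.take_append_drop]
  have hEJ : SpQ.E (J'.take k) ⊔ SpQ.E ((J'.drop k).take (J.length - 2 * k)) ⊔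
      SpQ.E (J'.drop (J.length - k)) = SpQ.E J := by
    rw [← SpQ.E_append, ← SpQ.E_append, ← hsplit]
    exact hw.E_eq
  refine ⟨J'.take k, (J'.drop k).take (J.length - 2 * k), J'.drop (J.length - k), ?_, ?_, ?_,
    ?_, ?_⟩
  · rw [← hsplit]
    exact hw
  · rw [List.length_take]
    omega
  · rw [List.length_drop]
    omega
  · refine hO Λ _ J ?_ ?_
    · rw [← hEJ]
      exact le_trans le_sup_left le_sup_left
    · have e : pr f (J'.take k) = L.take k := by
        rw [← hpr, pr, pr, List.map_take]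
      show no (Γ ⧸ Λ) (pr f (J'.take k)) ≤ no (Γ ⧸ Λ) M
      rw [e]
      exact h1
  · refine hO Λ _ J ?_ ?_
    · rw [← hEJ]
      exact le_sup_right
    · have e : pr f (J'.drop (J.length - k)) = L.drop (M.length - k) := by
        rw [← hpr, pr, pr, List.map_drop, hMl]
      show no (Γ ⧸ Λ) (pr f (J'.drop (J.length - k))) ≤ no (Γ ⧸ Λ) M
      rw [e]
      exact h2

end Pool.Agent.ARH
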