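import Pool.Agent.ARH.St
import Pool.Agent.ARH.Bmv
import Pool.Agent.EKH.Gcx

/-!
# Campaign ARH: SPLIT with a context (`St_Spx`), helper59
-/

set_option autoImplicit false

namespace Pool.Agent.ARH

open Module
open SpQ (Hd WReach)
open EKL (alg Fl Ir)
open EKH (Orb pos)
open LGC (It hl GI IReach GI_append_hl hl_append GI_append)

theorem hl_cj {Γ : Type} [Group Γ] {k : ℕ} (u : Γ) (L : List (Hd Γ k)) :
    (hl L).map (LGC.icj u) = hl (SpQ.cj u L) := by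
  unfold LGC.hl SpQ.cj
  rw [List.map_map, List.map_map]
  rfl

theorem thm_Spx (hA : LGC.St_All) (hG : LGC.St_Gek) (hM : St_Msk) (hQ : St_Qbl) : St_Spx := by
  intro K V₁ V₂ _ _ _ _ _ _ _ _ _ _ Γ _ Λ _ R r ℓ X B hi hd₁ hd₂ hℓ hB hT hF
  have hr₁ : 0 < finrank K V₁ := finrank_pos
  have hr₂ : 0 < finrank K V₂ := finrank_pos
  set G := GI (X ++ hl B) with hGdef
  have hGB : G = GI X ⊔ SpQ.E B := by rw [hGdef, GI_append_hl]
  unfold Mm at hB
  -- the mask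
  obtain ⟨L₀, Q, hw, hQl, hQo, hmask⟩ := hM Γ Λ ℓ (8 * r) B hℓ (by omega)
  have hEB : SpQ.E L₀ ⊔ SpQ.E Q = SpQ.E B := by
    rw [← SpQ.E_append]
    exact hw.E_eq
  have hlw : L₀.length + Q.length = B.length := by
    have h1 := hw.length_eq
    rwa [List.length_append] at h1
  have hQG : Orb Λ (SpQ.E Q) G := orb_trans hQo hT
  have hCG : GI X ⊔ SpQ.E Q ⊔ SpQ.E L₀ = G := by
    rw [hGB, ← hEB, sup_assoc, sup_comm (SpQ.E Q)]
  -- a bounded number of handles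
  obtain ⟨I, hI1, hI2⟩ := EKH.ess hi (GI X ⊔ SpQ.E Q) L₀
    (by
      rw [hCG]
      exact hQG.mono le_sup_right le_rfl)
    (by
      rw [hCG]
      exact hF)
  obtain ⟨A, J, hAJ, hIA, hJo, hJl⟩ := hmask I (by omega)
  obtain ⟨Q₀, B₃, Q₁, hJw, hQ₀l, hQ₁l, hQ₀o, hQ₁o⟩ := hQ Γ Λ ℓ J hℓ hJl
  have hJG : Orb Λ (SpQ.E J) G := orb_trans hJo hT
  have hQ₀G : Orb Λ (SpQ.E Q₀) G := orb_trans hQ₀o hJG
  have hQ₁G : Orb Λ (SpQ.E Q₁) G := orb_trans hQ₁o hJG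
  have hlA : A.length + J.length = L₀.length := by
    have h1 := hAJ.length_eq
    rwa [List.length_append] at h1
  have hlJ : Q₀.length + B₃.length + Q₁.length = J.length := by
    have h1 := hJw.length_eq
    rwa [List.length_append, List.length_append] at h1
  -- the blocks are moved to the ends
  obtain ⟨u, hu, hmu⟩ := IReach.move_block (X ++ hl A) (hl Q₀)
  rw [hl_cj] at hmu
  set v := bds Q with hv
  have hw1 : WReach B (A ++ (Q₀ ++ B₃ ++ (Q ++ SpQ.cj v Q₁))) := by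
    have h1 : WReach (L₀ ++ Q) (A ++ J ++ Q) := hAJ.right Q
    have h2 : WReach (A ++ J ++ Q) (A ++ (Q₀ ++ B₃ ++ Q₁) ++ Q) := (hJw.left A).right Q
    have h3 : WReach (A ++ (Q₀ ++ B₃) ++ (Q₁ ++ Q)) (A ++ (Q₀ ++ B₃) ++ (Q ++ SpQ.cj v Q₁)) :=
      (block_left Q₁ Q).left (A ++ (Q₀ ++ B₃))
    have e : A ++ (Q₀ ++ B₃) ++ (Q₁ ++ Q) = A ++ (Q₀ ++ B₃ ++ Q₁) ++ Q := by
      simp only [List.append_assoc]
    rw [e] at h3
    have e2 : A ++ (Q₀ ++ B₃) ++ (Q ++ SpQ.cj v Q₁) = A ++ (Q₀ ++ B₃ ++ (Q ++ SpQ.cj v Q₁)) := by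
      simp only [List.append_assoc]
    rw [e2] at h3
    exact ((hw.trans h1).trans h2).trans h3
  have hi1 : IReach (X ++ hl B)
      (hl (SpQ.cj u Q₀) ++ (X ++ hl (A ++ B₃ ++ Q)) ++ hl (SpQ.cj v Q₁)) := by
    have h1 := IReach.of_wreach' hw1 X []
    rw [List.append_nil, List.append_nil] at h1
    have h2 := hmu.right (hl (B₃ ++ (Q ++ SpQ.cj v Q₁)))
    have e1 : X ++ hl (A ++ (Q₀ ++ B₃ ++ (Q ++ SpQ.cj v Q₁))) =
        X ++ hl A ++ hl Q₀ ++ hl (B₃ ++ (Q ++ SpQ.cj v Q₁)) := by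
      simp only [hl_append, List.append_assoc]
    have e2 : hl (SpQ.cj u Q₀) ++ (X ++ hl A) ++ hl (B₃ ++ (Q ++ SpQ.cj v Q₁)) =
        hl (SpQ.cj u Q₀) ++ (X ++ hl (A ++ B₃ ++ Q)) ++ hl (SpQ.cj v Q₁) := by
      simp only [hl_append, List.append_assoc]
    rw [e1] at h1
    rw [e2] at h2
    exact h1.trans h2
  -- everything stays in the group
  have hXG : GI X ≤ G := by
    rw [hGB]
    exact le_sup_left
  have hBG : SpQ.E B ≤ G := by
    rw [hGB]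
    exact le_sup_right
  have hQB : SpQ.E Q ≤ SpQ.E B := by
    rw [← hEB]
    exact le_sup_right
  have hLB : SpQ.E L₀ ≤ SpQ.E B := by
    rw [← hEB]
    exact le_sup_left
  have hEL : SpQ.E A ⊔ SpQ.E J = SpQ.E L₀ := by
    rw [← SpQ.E_append]
    exact hAJ.E_eq
  have hAB : SpQ.E A ≤ SpQ.E B := by
    refine le_trans ?_ hLB
    rw [← hEL]
    exact le_sup_left
  have hJB : SpQ.E J ≤ SpQ.E B := by
    refine le_trans ?_ hLB
    rw [← hEL]
    exact le_sup_right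
  have hEJ : SpQ.E Q₀ ⊔ SpQ.E B₃ ⊔ SpQ.E Q₁ = SpQ.E J := by
    rw [← SpQ.E_append, ← SpQ.E_append]
    exact hJw.E_eq
  have hQ₀J : SpQ.E Q₀ ≤ SpQ.E J := by
    rw [← hEJ]
    exact le_trans le_sup_left le_sup_left
  have hB₃J : SpQ.E B₃ ≤ SpQ.E J := by
    rw [← hEJ]
    exact le_trans le_sup_right le_sup_left
  have hQ₁J : SpQ.E Q₁ ≤ SpQ.E J := by
    rw [← hEJ]
    exact le_sup_right
  have huG : u ∈ G := by
    have h1 : GI (X ++ hl A) ≤ G := by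
      rw [GI_append_hl]
      exact sup_le hXG (hAB.trans hBG)
    exact h1 hu
  have hvG : v ∈ G := (hQB.trans hBG) (bds_mem Q)
  have hC₀ : SpQ.E (SpQ.cj u Q₀) ≤ G := E_cj_le ((hQ₀J.trans hJB).trans hBG) huG
  have hC₁ : SpQ.E (SpQ.cj v Q₁) ≤ G := E_cj_le ((hQ₁J.trans hJB).trans hBG) hvG
  have hMG : GI (X ++ hl (A ++ B₃ ++ Q)) ≤ G := by
    rw [GI_append_hl, SpQ.E_append, SpQ.E_append]
    exact sup_le hXG (sup_le (sup_le (hAB.trans hBG) ((hB₃J.trans hJB).trans hBG))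
      (hQB.trans hBG))
  have hMF : Fl R (GI (X ++ hl (A ++ B₃ ++ Q))) := by
    refine hI2.mono ?_
    rw [GI_append_hl, SpQ.E_append, SpQ.E_append]
    refine sup_le (sup_le le_sup_left (le_trans le_sup_right le_sup_right)) ?_
    exact le_trans hIA (le_trans (le_trans le_sup_left le_sup_left) le_sup_right)
  have hO₀ : Orb Λ (SpQ.E (SpQ.cj u Q₀)) G := orb_cj hQ₀G huG
  have hO₁ : Orb Λ (SpQ.E (SpQ.cj v Q₁)) G := orb_cj hQ₁G hvG
  unfold k₀ at hQ₀l hQ₁l hJl hQl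
  have hlM : (A ++ B₃ ++ Q).length = A.length + B₃.length + Q.length := by
    rw [List.length_append, List.length_append]
  obtain ⟨X', B', P, hr, hXl, hBl, hPl, hF₀, hF₁⟩ := EKH.growX hA hG hi
    (SpQ.E (SpQ.cj u Q₀)) (SpQ.E (SpQ.cj v Q₁)) X (A ++ B₃ ++ Q)
    (hO₀.mono le_rfl (sup_le hC₀ hMG)) (hO₁.mono le_rfl (sup_le hC₁ hMG))
    (hMF.mono le_sup_right) (hMF.mono le_sup_right) (by
      rw [hlM]
      omega)
  obtain ⟨w, -, hmw⟩ := IReach.move_block (hl (SpQ.cj u Q₀)) X'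
  refine ⟨X'.map (LGC.icj w), SpQ.cj u Q₀ ++ B', P ++ SpQ.cj v Q₁, ?_, ?_, ?_, ?_, ?_⟩
  · refine hi1.trans ?_
    have h1 := (hr.left (hl (SpQ.cj u Q₀))).right (hl (SpQ.cj v Q₁))
    refine h1.trans ?_
    have h2 := hmw.right (hl (B' ++ P) ++ hl (SpQ.cj v Q₁))
    have e1 : hl (SpQ.cj u Q₀) ++ X' ++ (hl (B' ++ P) ++ hl (SpQ.cj v Q₁)) =
        hl (SpQ.cj u Q₀) ++ (X' ++ hl (B' ++ P)) ++ hl (SpQ.cj v Q₁) := by
      simp only [List.append_assoc]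
    have e2 : X'.map (LGC.icj w) ++ hl (SpQ.cj u Q₀) ++ (hl (B' ++ P) ++ hl (SpQ.cj v Q₁)) =
        X'.map (LGC.icj w) ++ hl (SpQ.cj u Q₀ ++ B' ++ (P ++ SpQ.cj v Q₁)) := by
      simp only [hl_append, List.append_assoc]
    rwa [e1, e2] at h2
  · rw [List.length_append, List.length_append, SpQ.cj_length, SpQ.cj_length]
    rw [hlM] at hBl
    omega
  · rw [List.length_append, SpQ.cj_length]
    unfold k₀
    omega
  · have e : GI (X'.map (LGC.icj w) ++ hl (SpQ.cj u Q₀ ++ B')) =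
        SpQ.E (SpQ.cj u Q₀) ⊔ GI (X' ++ hl B') := by
      rw [hl_append, ← List.append_assoc, GI_append_hl, hmw.GI_eq, GI_append, LGC.GI_hl,
        GI_append_hl, sup_assoc]
    rw [e]
    exact hF₀
  · rw [SpQ.E_append, sup_comm]
    exact hF₁

end Pool.Agent.ARH
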