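import Pool.Agent.ARH.Twr
import Pool.Agent.ARH.Spx
import Pool.Agent.ARH.Qbl
import Pool.Agent.ARH.Bsk
import Pool.Agent.ARH.In1
import Pool.Agent.ARH.Kil
import Pool.Agent.LGT.Hnd
import Pool.Agent.LGU.Avd
import Pool.Agent.LGU.Bcg
import Pool.Agent.LGU.Blg
import Pool.Agent.LGU.Bs2
import Pool.Agent.LGU.Bsg
import Pool.Agent.LGU.Fcd
import Pool.Agent.LGU.Law
import Pool.Agent.LGU.Lgw
import Pool.Agent.LGU.Lup
import Pool.Agent.LGU.Mcl
import Pool.Agent.LGU.Mk2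
import Pool.Agent.LGU.Mvf
import Pool.Agent.LGU.Mvw
import Pool.Agent.LGU.Nat
import Pool.Agent.LGU.Orn
import Pool.Agent.LGU.Rd2
import Pool.Agent.LGU.RedN

/-!
# Campaign ARH: the assembly

Helper21, for MP_0707f5_ag.
-/

set_option autoImplicit false

namespace Pool.Agent.ARH

open LGU (thm_Lgw thm_Lup thm_Mk2 thm_Mvf thm_Mvw thm_Orn thm_Bs2 thm_Nat thm_Fcd thm_Blg thm_Bcg
  thm_Bsg thm_Rd2)

theorem all_Gek : LGC.St_Gek :=
  LGC.thm_Gek (LGC.thm_Gnk (LGC.thm_Cnk LGC.thm_Pas) LGC.thm_Slk LGC.thm_Lif) LGC.thm_Map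

theorem all_Lgw : LGU.St_Lgw := thm_Lgw thm_Lup

theorem all_Mcl : LGU.St_Mcl := LGU.mcl thm_Mvf

theorem all_Msk : St_Msk := thm_Mk2 all_Lgw thm_Mvf thm_Mvw all_Mcl thm_Orn

theorem all_Qbl : St_Qbl := thm_Qbl all_Lgw thm_Orn

theorem all_Spx : St_Spx := thm_Spx LGC.thm_All all_Gek all_Msk all_Qbl

theorem all_Spl : St_Spl := thm_Spl all_Spx

theorem all_Bsd : St_Bsd := thm_Bs2 all_Lgw thm_Nat thm_Lup thm_Fcd thm_Blg thm_Bcg thm_Bsg

theorem all_Gen : St_Gen := gen all_Spl (bsk all_Bsd)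

theorem all_Red : St_Red := thm_Rd2 all_Lgw thm_Orn

theorem all_Ini : St_Ini := thm_Ini all_Red all_Spx

/-- the determination theorem for arbitrary subgroups -/
theorem all_Dek : St_Dek := dek all_Ini all_Spl all_Gen

theorem all_RedN : St_RedN := fun _ _ N Λ _ _ ℓ X B h1 h2 h3 h4 =>
  LGU.redN all_Lgw N Λ ℓ X B h1 h2 h3 h4

theorem all_IniN : St_IniN := iniN (in1 LGC.thm_All all_Gek all_Msk all_Qbl all_RedN)

/-- the determination theorem for towers -/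
theorem all_Dkn : St_Dkn := dkn all_IniN all_Spl all_Gen

end Pool.Agent.ARH
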