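import Pool.Agent.ARH.Gen

/-!
# ARH / Dek: the determination theorem for an abstract list (helper35)
-/

set_option autoImplicit false

namespace Pool.Agent.ARH

open Module
open SpQ (Hd WReach WExt)
open EKL (alg Fl Ir prE)
open LGP (prR)
open LGC (It hl GI IReach)

theorem dek (hI : St_Ini) (hS : St_Spl) (hG : St_Gen) : St_Dek := by
  intro Γ _ k Λ _ r ℓ ρ₁ ρ₂ X B h1 h2 hind hlen hGI hT y
  rcases Nat.eq_zero_or_pos r with hr | hr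
  · subst hr
    rw [Matrix.trace, Matrix.trace, Finset.univ_eq_empty, Finset.sum_empty, Finset.sum_empty]
  have : Nonempty (Fin r) := ⟨⟨0, hr⟩⟩
  have hir := ir_prE ρ₁ ρ₂ h1 h2
  have hd : finrank ℂ (Fin r → ℂ) ≤ r := by rw [Module.finrank_fin_fun]
  obtain ⟨X', B', a1, a2, a3⟩ := hI ℂ (Fin r → ℂ) (Fin r → ℂ) Γ k Λ (prE ρ₁ ρ₂) r ℓ X B hir hd hd
    hind (by omega) (by
      rw [hGI]
      show EKL.alg ℂ (prE ρ₁ ρ₂) ((⊤ : Subgroup Γ).subgroupOf Λ) = _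
      rw [Subgroup.top_subgroupOf])
  have hM : r ≤ Mm r ℓ ∧ 19 * r ≤ Mm r ℓ := by
    unfold Mm
    omega
  obtain ⟨B'', P, b1, b2, b3, b4⟩ := hS ℂ (Fin r → ℂ) (Fin r → ℂ) Γ k Λ (prE ρ₁ ρ₂) r ℓ
    (3 * Mm r ℓ) B' hir hd hd hind (le_trans (k₀_le ℓ r) (by omega)) (by omega) a3
  have hl := b1.length_eq
  rw [List.length_append] at hl
  refine NLG.hdet Λ ρ₁ ρ₂ h1 h2 (fun _ => True) (fun _ _ _ _ _ => ⟨trivial, trivial⟩) (2 * Mm r ℓ)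
    (hG Γ k Λ r ℓ ρ₁ ρ₂ h1 h2 hr hind) B'' P trivial (fu_fl.2 b3) (fu_fl.2 b4) (by omega)
    (by omega) (fun x hx => ?_) y
  exact hT X' B' x a1 (SpQ.fc_mono (WExt.of_reach b1) 0 hx)

end Pool.Agent.ARH
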