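import Pool.Agent.ARH.St

/-!
# ARH / Dfk: the theorem for arbitrary subgroups of small index, all weights, from the determination
theorem for lists

Helper41, for MP_0707f5_ag.
-/

set_option autoImplicit false

namespace Pool.Agent.ARH

open Matrix Module Helper12.Sc
open SpQ (Hd WReach IsSpinStructure)
open LGC (It GI hl IReach istd icj GI_append GI_hl mem_GI Wd quasi_traces thm_Fnn thm_Mci thm_Wbi
  thm_Sim)
open LGP (F ga gb gx x0 MC NS stdL stdM dstd wty prj)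

private theorem Dfk_GI {g n k : ℕ} (τ : Fin g → ZMod k × ZMod k) :
    GI (istd (n := n) τ) = ⊤ := by
  rw [eq_top_iff, ← LGP.closure_dstd (n := n) τ]
  unfold istd
  rw [GI_append, GI_hl]
  refine sup_le_sup_left ?_ _
  rw [Subgroup.closure_le]
  intro y hy
  exact mem_GI (i := Sum.inr y) (List.mem_map.2 ⟨y, hy, rfl⟩) rfl

/-- the letters of the lists of handles which are reached from the standard list -/
def Lst (g n k : ℕ) (τ : Fin g → ZMod k × ZMod k) : Set (F g n) :=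
  {x | ∃ (X : List (It (F g n) k)) (P : List (Hd (F g n) k)), IReach (istd τ) (X ++ hl P) ∧
    x ∈ SpQ.fc P 0}

/-- the determination theorem for the standard list, all weights -/
theorem Dfk_det (hD : St_Dek) (g n k r ℓ : ℕ) (τ : Fin g → ZMod k × ZMod k)
    (H : Subgroup (F g n)) [H.FiniteIndex] (hi : H.index ≤ 2 ^ ℓ) (hg : 7 * Mm r ℓ ≤ g)
    (ρ₁ ρ₂ : H →* GL (Fin r) ℂ) (h₁ : Pool.Agent.HZ.Irr ρ₁.range)
    (h₂ : Pool.Agent.HZ.Irr ρ₂.range)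
    (hT : ∀ y : H, (y : F g n) ∈ Lst g n k τ → (ρ₁ y : Matrix (Fin r) (Fin r) ℂ).trace =
      (ρ₂ y : Matrix (Fin r) (Fin r) ℂ).trace) :
    ∀ y, (ρ₁ y : Matrix (Fin r) (Fin r) ℂ).trace = (ρ₂ y : Matrix (Fin r) (Fin r) ℂ).trace := by
  have hlen : (dstd (n := n) τ).length = g := by simp [dstd]
  obtain ⟨u, -, hu⟩ := IReach.move_block (hl (dstd (n := n) τ))
    ((stdM g n).map (Sum.inr : F g n → It (F g n) k))
  have hGI : GI (List.map (icj u) ((stdM g n).map (Sum.inr : F g n → It (F g n) k)) ++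
      hl (dstd τ)) = ⊤ := by
    rw [hu.GI_eq]
    exact Dfk_GI τ
  exact hD (F g n) k H r ℓ ρ₁ ρ₂ _ (dstd τ) h₁ h₂ hi (by rw [hlen]; exact hg) hGI
    fun X' B' y hr hy => hT y ⟨X', B', hu.trans hr, hy⟩

/-- **Theorem D for an arbitrary subgroup of small index**, with weights -/
theorem thmHk (hD : St_Dek) (g n k R m ℓ : ℕ) (w : SurfaceGroup g → ZMod k) (hk : 0 < k)
    (hw : IsSpinStructure k w) (H : Subgroup (F g n)) [H.FiniteIndex] (hi : H.index ≤ 2 ^ ℓ)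
    (ρ : F g n →* GL (Fin R) ℂ) (r : Fin m → ℕ) (σ : ∀ j, H →* GL (Fin (r j)) ℂ)
    (hσ : ∀ j, Pool.Agent.HZ.Irr (σ j).range ∧ 7 * Mm (r j) ℓ ≤ g)
    (h1 : ∃ d, ∀ (y : H) (z : ℂ), (ρ (y : F g n) : Matrix (Fin R) (Fin R) ℂ).charpoly.IsRoot z →
      z ∈ Wd d {u | ∃ j, (σ j y : Matrix (Fin (r j)) (Fin (r j)) ℂ).charpoly.IsRoot u})
    (h2 : ((∀ y : H, NS (y : F g n) → w (prj g n y) = 0 → Pool.Agent.HZ.Quasi (ρ (y : F g n))) ∧
        ∃ d, ∀ (y : H) (j : Fin m) (z : ℂ),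
          (σ j y : Matrix (Fin (r j)) (Fin (r j)) ℂ).charpoly.IsRoot z →
          z ∈ Wd d {u | (ρ (y : F g n) : Matrix (Fin R) (Fin R) ℂ).charpoly.IsRoot u}) ∨
      ∀ j, {z : ℂ | ∃ y : H, NS (y : F g n) ∧ w (prj g n y) = 0 ∧
        z = (σ j y : Matrix (Fin (r j)) (Fin (r j)) ℂ).trace}.Finite) :
    {χ : F g n → ℂ | ∃ φ ∈ MC g n,
      χ = fun y => (ρ (φ y) : Matrix (Fin R) (Fin R) ℂ).trace}.Finite := by
  have hfin : ∀ j, {z : ℂ | ∃ y : H, NS (y : F g n) ∧ w (prj g n y) = 0 ∧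
      z = (σ j y : Matrix (Fin (r j)) (Fin (r j)) ℂ).trace}.Finite := by
    rcases h2 with ⟨h2, d, h3⟩ | h2
    · intro j
      refine (quasi_traces H ρ (σ j) {y | NS (y : F g n) ∧ w (prj g n y) = 0}
        (fun y z hz => h3 y j z hz) (fun y hy => h2 y hy.1 hy.2)).subset ?_
      rintro z ⟨y, hy1, hy2, rfl⟩
      exact ⟨y, ⟨hy1, hy2⟩, rfl⟩
    · exact h2
  obtain ⟨d, h1⟩ := h1
  have e : H.comap (1 : MulAut (F g n)).toMonoidHom = H := by
    ext y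
    exact Iff.rfl
  refine LGT.orbH thm_Fnn thm_Mci g n k R m d w hk H.normalCore H H.normalCore_le 1
    LGP.MC_one rfl (Lst g n k) ?_ ρ r σ (fun j => (hσ j).1) h1 hfin ?_
  · rintro φ hφ hφ0 x ⟨X, P, hr, hx⟩
    exact (thm_Wbi thm_Sim g n k w hw φ hφ hφ0 X P hr x hx).1
  · intro τ j
    rw [e]
    intro ρ₁ ρ₂ h₁ h₂ hT
    exact Dfk_det hD g n k (r j) ℓ τ H hi (hσ j).2 ρ₁ ρ₂ h₁ h₂ hT

/-- **DEH**. -/
theorem deh (hD : St_Dek) : St_Deh := by
  intro g n r ℓ H _ hi hg ρ₁ ρ₂ h₁ h₂ hT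
  refine Dfk_det hD g n 1 r ℓ (fun _ => (0, 0)) H hi hg ρ₁ ρ₂ h₁ h₂ ?_
  rintro y ⟨X, P, hr, hy⟩
  refine hT y ?_
  have hw : IsSpinStructure 1 (fun _ : SurfaceGroup g => (0 : ZMod 1)) :=
    ⟨fun _ _ => Subsingleton.elim _ _, fun _ _ _ => rfl, fun _ _ _ => Subsingleton.elim _ _,
      fun _ _ _ _ _ => Subsingleton.elim _ _⟩
  have e : wty (fun _ : SurfaceGroup g => (0 : ZMod 1)) (1 : MulAut (F g n)) =
      fun _ => (0, 0) := by
    funext i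
    exact Subsingleton.elim _ _
  have h3 := (thm_Wbi thm_Sim g n 1 (fun _ => 0) hw 1 LGP.MC_one rfl X P (by
    rw [e]
    exact hr) y hy).1.1
  exact h3

end Pool.Agent.ARH
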