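import Pool.Agent.ARH.St

/-!
# ARH / Gen: the spare letters of a long full list generate (helper35)
-/

set_option autoImplicit false

namespace Pool.Agent.ARH

open Module
open SpQ (Hd WReach WExt)
open EKL (alg Fl Ir prE)
open LGP (prR)

/-- irreducibility of the pair -/
theorem ir_prE {G : Type} [Group G] {r : ℕ} (ρ₁ ρ₂ : G →* GL (Fin r) ℂ)
    (h1 : Pool.Agent.HZ.Irr ρ₁.range) (h2 : Pool.Agent.HZ.Irr ρ₂.range) : Ir (prE ρ₁ ρ₂) := by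
  constructor
  · intro W hW
    refine h1 W ?_
    rintro _ ⟨y, rfl⟩ v hv
    exact hW y v hv
  · intro W hW
    refine h2 W ?_
    rintro _ ⟨y, rfl⟩ v hv
    exact hW y v hv

/-- fullness -/
theorem fu_fl {Γ : Type} [Group Γ] {r : ℕ} {Λ : Subgroup Γ} {ρ₁ ρ₂ : Λ →* GL (Fin r) ℂ}
    {G : Subgroup Γ} : NLG.Fu (prR ρ₁ ρ₂) G ↔ Fl (prE ρ₁ ρ₂) G :=
  NLG.fu_iff Λ ρ₁ ρ₂ G

theorem k₀_le (ℓ : ℕ) (r : ℕ) : 8 * r + k₀ ℓ ≤ Mm r ℓ := by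
  unfold k₀ Mm
  omega

theorem gen (hS : St_Spl) (hB : St_Bsk) : St_Gen := by
  intro Γ _ k Λ _ r ℓ ρ₁ ρ₂ h1 h2 hr hind B _ hf hlen
  have : Nonempty (Fin r) := ⟨⟨0, hr⟩⟩
  obtain ⟨B', P, g1, g2, g3, g4⟩ := hS ℂ (Fin r → ℂ) (Fin r → ℂ) Γ k Λ (prE ρ₁ ρ₂) r ℓ (Mm r ℓ) B
    (ir_prE ρ₁ ρ₂ h1 h2) (by rw [Module.finrank_fin_fun]) (by rw [Module.finrank_fin_fun]) hind
    (k₀_le ℓ r) (by omega) (fu_fl.1 hf)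
  obtain ⟨b1, ⟨y₀, b2, b3⟩, y₁, b4, b5⟩ := hB Γ k Λ ℓ P hind (by
    rw [g2]
    unfold Mm
    omega)
  -- the letters of `P` are spare letters
  have key : ∀ y : Λ, (y : Γ) ∈ SpQ.fc P (-1) → y ∈ NLG.Hs (prR ρ₁ ρ₂) B := by
    rintro y ⟨z, q, junk, hj⟩
    refine ⟨B' ++ junk, _, ?_, (fu_fl.2 g3).mono (NLG.E_left B' junk), ⟨z, q, WExt.refl _⟩⟩
    refine g1.trans ?_
    rw [List.append_assoc]
    exact hj.left B'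
  refine ⟨⟨⟨y₀, b2⟩, key ⟨y₀, b2⟩ b3⟩, ⟨⟨y₁, b4⟩, ?_⟩, ?_⟩
  · exact SpQ.fc_mono ⟨B', g1⟩ 0 b5
  · intro W hW y s hs
    have h3 : Λ ⊓ SpQ.E P ≤ LGC.sg (prR ρ₁ ρ₂) W := by
      refine b1.trans ?_
      rw [Subgroup.closure_le]
      rintro x ⟨hx, hxP⟩
      exact ⟨⟨x, hx⟩, hW ⟨x, hx⟩ (key ⟨x, hx⟩ hxP), rfl⟩
    have h4 := LGP.cyc_le hs (LGC.subgroupOf_le_stb (prR ρ₁ ρ₂) _ _ h3)
    rw [fu_fl.2 g4 s] at h4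
    exact h4 (Submodule.subset_span ⟨y, Subgroup.mem_top _, rfl⟩)

end Pool.Agent.ARH
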