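import Pool.Agent.ARH.Sp1
import Pool.Agent.LGT.Wgt

/-!
# ARH / Lft: splitting and full lists of handles, with weights

Helper20, for MP_0707f5_ag: the weights are forgotten, and the moves are lifted.
-/

set_option autoImplicit false

namespace Pool.Agent.ARH

open Module
open SpQ (Hd WReach)
open EKL (alg Fl Ir)
open EKH (Orb pos)
open LGC (It hl GI IReach)

theorem thm_Spl (hX : St_Spx) : St_Spl := by
  intro K V₁ V₂ _ _ _ _ _ _ _ _ _ _ Γ _ k Λ _ R r ℓ a B hi h1 h2 hΛ ha hB hF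
  obtain ⟨B', P, h3, h4, h5, h6⟩ := spl1 hX Λ R r ℓ a (B.map LGT.fgt) hi h1 h2 hΛ ha
    (by rwa [List.length_map]) (by rwa [LGT.E_fgt])
  obtain ⟨L, h7, h8⟩ := LGT.reach_lift h3
  obtain ⟨B₁, P₁, rfl, rfl, rfl⟩ := List.map_eq_append_iff.1 h8
  rw [LGT.E_fgt] at h5 h6
  rw [List.length_map] at h4
  exact ⟨B₁, P₁, h7, h4, h5, h6⟩

theorem thm_Ini (hR : St_Red) (hX : St_Spx) : St_Ini := by
  intro K V₁ V₂ _ _ _ _ _ _ _ _ _ _ Γ _ k Λ _ R r ℓ X B hi h1 h2 hΛ hB hF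
  have hGI : GI (X.map LGT.ifg ++ hl (B.map LGT.fgt)) = GI (X ++ hl B) := by
    rw [← LGT.hl_fgt, ← List.map_append, LGT.GI_fgt]
  obtain ⟨X', B', h3, h4, h5⟩ := ini1 hR hX Λ R r ℓ (X.map LGT.ifg) (B.map LGT.fgt) hi h1 h2 hΛ
    (by rwa [List.length_map]) (by rwa [hGI])
  obtain ⟨X₁, B₁, h6, rfl, rfl⟩ := LGT.ireach_lift_hl h3
  rw [LGT.E_fgt] at h5
  rw [List.length_map, List.length_map] at h4
  exact ⟨X₁, B₁, h6, h4, h5⟩

end Pool.Agent.ARH
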