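import Pool.Agent.ARH.St
import Pool.Agent.LGN.All

/-!
# Campaign ARH: finite orbits, from the determination theorem `St_Dek`

Helper21, for MP_0707f5_ag.  `H` is an arbitrary subgroup of finite index; for a normal subgroup
which contains the group of a subsurface the older conditions on the `σ j` are also possible.
-/

set_option autoImplicit false

namespace Pool.Agent.ARH

open Matrix Module Helper12.Sc
open SpQ (Hd WStep WReach WExt Good bare bd cj1 IsSpinStructure)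
open LGC (It GI hl IReach istd GI_append GI_hl mem_GI hl_append icj Wd tod
  quasi_traces all_Blk2 thm_Ext thm_Fnn thm_Mci thm_Wbi thm_Sim)
open LGP (F ga gb gx x0 MC NS MR stdL stdM dstd wty prj)

/-- the loops of weight zero of the lists which are reached from the standard list -/
def Lam {g n k : ℕ} (τ : Fin g → ZMod k × ZMod k) : Set (F g n) :=
  {x | ∃ (X : List (It (F g n) k)) (P : List (Hd (F g n) k)), IReach (istd τ) (X ++ hl P) ∧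
    x ∈ SpQ.fc P 0}

theorem lam_ok {g n k : ℕ} {w : SurfaceGroup g → ZMod k} (hw : IsSpinStructure k w) :
    ∀ φ ∈ MC g n, φ (x0 g n) = x0 g n → ∀ x ∈ Lam (n := n) (wty w φ),
      NS (φ x) ∧ w (prj g n (φ x)) = 0 := by
  rintro φ hφ hφ0 x ⟨X, P, h1, h2⟩
  exact (thm_Wbi thm_Sim g n k w hw φ hφ hφ0 X P h1 x h2).1

private theorem GI_istd {g n k : ℕ} (τ : Fin g → ZMod k × ZMod k) :
    GI (istd (n := n) τ) = ⊤ := by
  rw [eq_top_iff, ← LGP.closure_dstd (n := n) τ]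
  unfold istd
  rw [GI_append, GI_hl]
  refine sup_le_sup_left ?_ _
  rw [Subgroup.closure_le]
  intro y hy
  exact mem_GI (i := Sum.inr y) (List.mem_map.2 ⟨y, hy, rfl⟩) rfl

/-- the determination theorem for the fundamental group -/
theorem det_lam (hD : St_Dek) {g n k r ℓ : ℕ} (H : Subgroup (F g n)) [H.FiniteIndex]
    (hℓ : H.index ≤ 2 ^ ℓ) (hg : 7 * Mm r ℓ ≤ g) (τ : Fin g → ZMod k × ZMod k)
    (ρ₁ ρ₂ : H →* GL (Fin r) ℂ) (h₁ : Pool.Agent.HZ.Irr ρ₁.range)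
    (h₂ : Pool.Agent.HZ.Irr ρ₂.range)
    (hT : ∀ y : H, (y : F g n) ∈ Lam (n := n) τ → (ρ₁ y : Matrix (Fin r) (Fin r) ℂ).trace =
      (ρ₂ y : Matrix (Fin r) (Fin r) ℂ).trace) (y : H) :
    (ρ₁ y : Matrix (Fin r) (Fin r) ℂ).trace = (ρ₂ y : Matrix (Fin r) (Fin r) ℂ).trace := by
  have hlen : (dstd (n := n) τ).length = g := by simp [dstd]
  obtain ⟨u, -, hu⟩ := IReach.move_block (hl (dstd (n := n) τ)) ((stdM g n).map Sum.inr)
  have hu' : IReach (istd (n := n) τ) (List.map (icj u) ((stdM g n).map Sum.inr) ++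
    hl (dstd (n := n) τ)) := hu
  refine hD (F g n) k H r ℓ ρ₁ ρ₂ (List.map (icj u) ((stdM g n).map Sum.inr)) (dstd τ) h₁ h₂ hℓ
    (by rw [hlen]; exact hg) ?_ ?_ y
  · rw [hu'.GI_eq]
    exact GI_istd τ
  · intro X' B' z hr hz
    exact hT z ⟨X', B', hu'.trans hr, hz⟩

/-- the condition on a representation of `H` -/
def CndM {g n : ℕ} (H : Subgroup (F g n)) (ℓ h r : ℕ) (σ : H →* GL (Fin r) ℂ) : Prop :=
  (Pool.Agent.HZ.Irr σ.range ∧ 7 * Mm r ℓ ≤ g) ∨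
    (H.Normal ∧ (h ≤ g ∧ ∃ θ ∈ MC g n, ∀ i : Fin g, (i : ℕ) < h → θ (ga i) ∈ H ∧ θ (gb i) ∈ H) ∧
      LGN.CndA (fun r => 36 * r) H h r σ)

/-- **Theorem D** for arbitrary subgroups of finite index -/
theorem thmM (hD : St_Dek) (g n k R m h ℓ : ℕ) (w : SurfaceGroup g → ZMod k) (hk : 0 < k)
    (hw : IsSpinStructure k w) (H : Subgroup (F g n)) [H.FiniteIndex] (hℓ : H.index ≤ 2 ^ ℓ)
    (ρ : F g n →* GL (Fin R) ℂ) (r : Fin m → ℕ) (σ : ∀ j, H →* GL (Fin (r j)) ℂ)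
    (hσ : ∀ j, CndM H ℓ h (r j) (σ j))
    (h1 : ∃ d, ∀ (y : H) (z : ℂ), (ρ (y : F g n) : Matrix (Fin R) (Fin R) ℂ).charpoly.IsRoot z →
      z ∈ Wd d {u | ∃ j, (σ j y : Matrix (Fin (r j)) (Fin (r j)) ℂ).charpoly.IsRoot u})
    (h2 : ((∀ y : H, NS (y : F g n) → w (prj g n y) = 0 → Pool.Agent.HZ.Quasi (ρ (y : F g n))) ∧
        ∃ d, ∀ (y : H) (j : Fin m) (z : ℂ),
          (σ j y : Matrix (Fin (r j)) (Fin (r j)) ℂ).charpoly.IsRoot z →
          z ∈ Wd d {u | (ρ (y : F g n) : Matrix (Fin R) (Fin R) ℂ).charpoly.IsRoot u}) ∨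
      ∀ j, {z : ℂ | ∃ y : H, NS (y : F g n) ∧ w (prj g n y) = 0 ∧
        z = (σ j y : Matrix (Fin (r j)) (Fin (r j)) ℂ).trace}.Finite) :
    {χ : F g n → ℂ | ∃ φ ∈ MC g n,
      χ = fun y => (ρ (φ y) : Matrix (Fin R) (Fin R) ℂ).trace}.Finite := by
  have hfin : ∀ j, {z : ℂ | ∃ y : H, NS (y : F g n) ∧ w (prj g n y) = 0 ∧
      z = (σ j y : Matrix (Fin (r j)) (Fin (r j)) ℂ).trace}.Finite := by
    rcases h2 with ⟨h2, d, h3⟩ | h2
    · intro j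
      refine (quasi_traces H ρ (σ j) {y | NS (y : F g n) ∧ w (prj g n y) = 0}
        (fun y z hz => h3 y j z hz) (fun y hy => h2 y hy.1 hy.2)).subset ?_
      rintro z ⟨y, hy1, hy2, rfl⟩
      exact ⟨y, ⟨hy1, hy2⟩, rfl⟩
    · exact h2
  obtain ⟨d, h1⟩ := h1
  -- the determination theorem for the inverse images of `H`
  have hdet : ∀ (θ : MulAut (F g n)) (j : Fin m), 7 * Mm (r j) ℓ ≤ g →
      ∀ (τ : Fin g → ZMod k × ZMod k) (ρ₁ ρ₂ : ↥(H.comap θ.toMonoidHom) →* GL (Fin (r j)) ℂ),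
      Pool.Agent.HZ.Irr ρ₁.range → Pool.Agent.HZ.Irr ρ₂.range →
      (∀ y : ↥(H.comap θ.toMonoidHom), (y : F g n) ∈ Lam (n := n) τ →
        (ρ₁ y : Matrix (Fin (r j)) (Fin (r j)) ℂ).trace =
          (ρ₂ y : Matrix (Fin (r j)) (Fin (r j)) ℂ).trace) →
      ∀ y, (ρ₁ y : Matrix (Fin (r j)) (Fin (r j)) ℂ).trace =
        (ρ₂ y : Matrix (Fin (r j)) (Fin (r j)) ℂ).trace := by
    intro θ j hj τ ρ₁ ρ₂ i₁ i₂ hT
    have hidx : (H.comap θ.toMonoidHom).index = H.index :=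
      Subgroup.index_comap_of_surjective H (f := θ.toMonoidHom) θ.surjective
    have : (H.comap θ.toMonoidHom).FiniteIndex := ⟨by
      rw [hidx]
      exact Subgroup.FiniteIndex.index_ne_zero⟩
    exact det_lam hD (H.comap θ.toMonoidHom) (by rw [hidx]; exact hℓ) hj τ ρ₁ ρ₂ i₁ i₂ hT
  by_cases hall : ∀ j, Pool.Agent.HZ.Irr (σ j).range ∧ 7 * Mm (r j) ℓ ≤ g
  · exact LGT.orbH thm_Fnn thm_Mci g n k R m d w hk H.normalCore H H.normalCore_le 1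
      LGP.MC_one rfl Lam (lam_ok hw) ρ r σ (fun j => (hall j).1) h1 hfin
      fun τ j ρ₁ ρ₂ => hdet 1 j (hall j).2 τ ρ₁ ρ₂
  · push Not at hall
    obtain ⟨j₀, hj₀⟩ := hall
    obtain ⟨hN, ⟨hh, hex⟩, -⟩ : H.Normal ∧ (h ≤ g ∧ ∃ θ ∈ MC g n, ∀ i : Fin g, (i : ℕ) < h →
        θ (ga i) ∈ H ∧ θ (gb i) ∈ H) ∧ LGN.CndA (fun r => 36 * r) H h (r j₀) (σ j₀) := by
      rcases hσ j₀ with ⟨h3, h4⟩ | h3
      · exact absurd h4 (not_le.2 (hj₀ h3))
      · exact h3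
    refine tod (thm_Ext thm_Fnn) thm_Fnn thm_Mci g n k R m h d w hk H hex ρ r σ h1
      fun θ hθ hθ0 hθN j τ => ?_
    rcases hσ j with ⟨hi, hb⟩ | ⟨-, -, hσ | ⟨hi, hb⟩⟩
    · exact LGT.blkH thm_Fnn g n k (r j) w H H le_rfl θ Lam (lam_ok hw) (σ j) hi (hfin j) τ
        (hdet θ j hb τ)
    · exact all_Blk2 g n k (r j) h w hw H θ hθ hθ0 hh hθN (σ j) hσ (hfin j) τ
    · exact LGN.ap_Bl LGN.all_Vk thm_Fnn (thm_Wbi thm_Sim) g n k (r j) h w hw H θ hθ0 hh hθN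
        (σ j) hi hb (hfin j) τ

end Pool.Agent.ARH
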