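import Pool.Agent.ARH.Mix

/-!
# Campaign ARH: finite orbits, several subgroups of finite index

Helper21, for MP_0707f5_ag.  The representation `σ j` lives on its own subgroup `H j` of finite index,
and the eigenvalues are compared on a subgroup `C` of finite index of all of them.
-/

set_option autoImplicit false

namespace Pool.Agent.ARH

open Matrix Module Helper12.Sc
open SpQ (Hd IsSpinStructure)
open LGC (Wd Wd_root all_Blk2 thm_Fnn thm_Mci thm_Wbi thm_Sim)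
open LGP (F ga gb gx x0 MC NS wty prj)

/-- powers of quasi-unipotent elements -/
theorem quasi_pow {r : ℕ} {A : GL (Fin r) ℂ} (hA : Pool.Agent.HZ.Quasi A) {e : ℕ} (he : 0 < e) :
    Pool.Agent.HZ.Quasi (A ^ e) := by
  intro z hz
  rw [Units.val_pow_eq_pow_val, ← Matrix.mem_spectrum_iff_isRoot_charpoly,
    spectrum.map_pow_of_pos _ he] at hz
  obtain ⟨u, hu, rfl⟩ := hz
  rw [Matrix.mem_spectrum_iff_isRoot_charpoly] at hu
  obtain ⟨m, hm, h1⟩ := hA u hu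
  refine ⟨m, hm, ?_⟩
  show (u ^ e) ^ m = 1
  rw [← pow_mul, mul_comm, pow_mul, h1, one_pow]

/-- quasi-unipotent elements: finitely many traces -/
theorem finite_traces {g n r : ℕ} (N : Subgroup (F g n)) [N.FiniteIndex]
    (σ : N →* GL (Fin r) ℂ) (S : Set N) (h : ∀ y ∈ S, Pool.Agent.HZ.Quasi (σ y)) :
    {z : ℂ | ∃ y ∈ S, z = (σ y : Matrix (Fin r) (Fin r) ℂ).trace}.Finite := by
  have : Group.FG (F g n) := by
    rw [Group.fg_iff]
    exact ⟨_, FreeGroup.closure_range_of _, Set.finite_range _⟩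
  have : Group.FG N := inferInstance
  have hfg : σ.range.FG := by
    rw [← Group.fg_iff_subgroup_fg]
    infer_instance
  obtain ⟨M, hM, hexp⟩ := Pool.Agent.HZ.exists_exponent σ.range hfg
  have hZ : {z : ℂ | z ^ M = 1}.Finite := by
    classical
    refine ((Polynomial.nthRoots M (1 : ℂ)).toFinset.finite_toSet).subset ?_
    intro z hz
    rw [Finset.mem_coe, Multiset.mem_toFinset, Polynomial.mem_nthRoots hM]
    exact hz
  refine (Pool.Agent.HZ.finite_traces_of_roots r _ hZ).subset ?_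
  rintro _ ⟨y, hy, rfl⟩
  exact ⟨_, fun c hc => hexp (σ y) ⟨y, rfl⟩ c hc (h y hy c hc), rfl⟩

/-- eigenvalues which are words on a subgroup of finite index -/
theorem quasi_of_words {g n R r d : ℕ} {C H : Subgroup (F g n)} [C.FiniteIndex] (hC : C ≤ H)
    (ρ : F g n →* GL (Fin R) ℂ) (σ : H →* GL (Fin r) ℂ)
    (h1 : ∀ (y : C) (z : ℂ), (σ ⟨y, hC y.2⟩ : Matrix (Fin r) (Fin r) ℂ).charpoly.IsRoot z →
      z ∈ Wd d {u | (ρ (y : F g n) : Matrix (Fin R) (Fin R) ℂ).charpoly.IsRoot u})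
    (y : H) (hy : Pool.Agent.HZ.Quasi (ρ (y : F g n))) : Pool.Agent.HZ.Quasi (σ y) := by
  have he : 0 < (C.index).factorial := Nat.factorial_pos _
  have hyC : (y : F g n) ^ (C.index).factorial ∈ C :=
    C.pow_mem_of_index_ne_zero_of_dvd Subgroup.FiniteIndex.index_ne_zero _
      fun m hm hm' => Nat.dvd_factorial hm hm'
  intro z hz
  have h2 := isRoot_pow hz (C.index).factorial
  have e1 : σ ⟨(y : F g n) ^ (C.index).factorial, hC hyC⟩ = σ y ^ (C.index).factorial := by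
    rw [← map_pow]
    congr 1
  rw [← Units.val_pow_eq_pow_val, ← e1] at h2
  have h3 := h1 ⟨_, hyC⟩ _ h2
  obtain ⟨m, hm, h4⟩ := Wd_root d (fun u hu => by
    have h5 := quasi_pow hy he
    rw [← map_pow] at h5
    exact h5 u hu) _ h3
  refine ⟨(C.index).factorial * m, Nat.mul_pos he hm, ?_⟩
  rw [pow_mul]
  exact h4

/-- the condition on a representation of `H` -/
def CndN {g n : ℕ} (H : Subgroup (F g n)) (r : ℕ) (σ : H →* GL (Fin r) ℂ) : Prop :=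
  (Pool.Agent.HZ.Irr σ.range ∧ ∃ ℓ, H.index ≤ 2 ^ ℓ ∧ 7 * Mm r ℓ ≤ g) ∨
    (H.Normal ∧ ∃ h ≤ g, (∃ θ ∈ MC g n, ∀ i : Fin g, (i : ℕ) < h → θ (ga i) ∈ H ∧ θ (gb i) ∈ H) ∧
      LGN.CndA (fun r => 36 * r) H h r σ)

/-- one block: finitely many characters in the class of the identity modulo `C` -/
theorem blk (hD : St_Dek) (g n k r : ℕ) (w : SurfaceGroup g → ZMod k) (hk : 0 < k)
    (hw : IsSpinStructure k w) (C H : Subgroup (F g n)) [C.Normal] [C.FiniteIndex] (hC : C ≤ H)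
    (σ : H →* GL (Fin r) ℂ) (hσ : CndN H r σ)
    (hfin : {z : ℂ | ∃ y : H, NS (y : F g n) ∧ w (prj g n y) = 0 ∧
      z = (σ y : Matrix (Fin r) (Fin r) ℂ).trace}.Finite)
    (τ : Fin g → ZMod k × ZMod k) :
    {χ : ↥(C.comap (1 : MulAut (F g n)).toMonoidHom) → ℂ | ∃ φ ∈ MC g n,
      φ (x0 g n) = x0 g n ∧ (∀ y, φ y * ((1 : MulAut (F g n)) y)⁻¹ ∈ C) ∧ wty w φ = τ ∧
      ∃ hφ : ∀ y ∈ C.comap (1 : MulAut (F g n)).toMonoidHom, φ y ∈ C,
      χ = fun y : ↥(C.comap (1 : MulAut (F g n)).toMonoidHom) =>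
        (σ.comp (Subgroup.inclusion hC) ⟨φ y, hφ y y.2⟩ :
          Matrix (Fin r) (Fin r) ℂ).trace}.Finite := by
  have : H.FiniteIndex := Subgroup.finiteIndex_of_le hC
  have : NeZero k := ⟨hk.ne'⟩
  rcases hσ with ⟨hi, ℓ, hℓ, hb⟩ | ⟨hN, h, hh, ⟨θ₀, hθ₀, hθ₀N⟩, hσ⟩
  · -- an arbitrary subgroup
    have key := LGT.blkH thm_Fnn g n k r w C H hC 1 Lam (lam_ok hw) σ hi hfin τ (by
      intro ρ₁ ρ₂ i₁ i₂ hT
      have hidx : (H.comap (1 : MulAut (F g n)).toMonoidHom).index = H.index :=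
        Subgroup.index_comap_of_surjective H (f := (1 : MulAut (F g n)).toMonoidHom)
          (1 : MulAut (F g n)).surjective
      have : (H.comap (1 : MulAut (F g n)).toMonoidHom).FiniteIndex := ⟨by
        rw [hidx]
        exact Subgroup.FiniteIndex.index_ne_zero⟩
      exact det_lam hD _ (by rw [hidx]; exact hℓ) hb τ ρ₁ ρ₂ i₁ i₂ hT)
    refine (key.image fun (χ : ↥(H.comap (1 : MulAut (F g n)).toMonoidHom) → ℂ)
      (y : ↥(C.comap (1 : MulAut (F g n)).toMonoidHom)) => χ ⟨y, hC y.2⟩).subset ?_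
    rintro _ ⟨φ, hφ, hφ0, hφC, hτ, hφ', rfl⟩
    have hφH : ∀ y ∈ H.comap (1 : MulAut (F g n)).toMonoidHom, φ y ∈ H := by
      intro y hy
      have h1 : φ y * ((1 : MulAut (F g n)) y)⁻¹ * y ∈ H := H.mul_mem (hC (hφC y)) hy
      rwa [MulAut.one_apply, inv_mul_cancel_right] at h1
    exact ⟨_, ⟨φ, hφ, hφ0, hφC, hτ, hφH, rfl⟩, rfl⟩
  · -- a normal subgroup which contains the group of a subsurface
    obtain ⟨u, hu⟩ := isConj_iff.1 hθ₀.1
    obtain ⟨θ, hθdef⟩ : ∃ θ : MulAut (F g n), θ = MulAut.conj u * θ₀ := ⟨_, rfl⟩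
    have hθ : θ ∈ MC g n := by
      rw [hθdef]
      exact LGP.MC_mul (LGP.Psh_conj_mem u) hθ₀
    have hθ0 : θ (x0 g n) = x0 g n := by
      rw [hθdef, MulAut.mul_apply, MulAut.conj_apply]
      exact hu
    have hθN : ∀ i : Fin g, (i : ℕ) < h → θ (ga i) ∈ H ∧ θ (gb i) ∈ H := by
      intro i hi
      rw [hθdef, MulAut.mul_apply, MulAut.mul_apply, MulAut.conj_apply, MulAut.conj_apply]
      exact ⟨Subgroup.Normal.conj_mem inferInstance _ (hθ₀N i hi).1 u,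
        Subgroup.Normal.conj_mem inferInstance _ (hθ₀N i hi).2 u⟩
    have key : ∀ τ' : Fin g → ZMod k × ZMod k,
        {χ : ↥(H.comap θ.toMonoidHom) → ℂ | ∃ φ ∈ MC g n,
          φ (x0 g n) = x0 g n ∧ (∀ y, φ y * (θ y)⁻¹ ∈ H) ∧ wty w φ = τ' ∧
          ∃ hφ : ∀ y ∈ H.comap θ.toMonoidHom, φ y ∈ H,
          χ = fun y : ↥(H.comap θ.toMonoidHom) =>
            (σ ⟨φ y, hφ y y.2⟩ : Matrix (Fin r) (Fin r) ℂ).trace}.Finite := by
      intro τ'
      rcases hσ with hσ | ⟨hi, hb⟩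
      · exact all_Blk2 g n k r h w hw H θ hθ hθ0 hh hθN σ hσ hfin τ'
      · exact LGN.ap_Bl LGN.all_Vk thm_Fnn (thm_Wbi thm_Sim) g n k r h w hw H θ hθ0 hh hθN
          σ hi hb hfin τ'
    have hmem : ∀ y : ↥(C.comap (1 : MulAut (F g n)).toMonoidHom),
        θ⁻¹ (y : F g n) ∈ H.comap θ.toMonoidHom := by
      intro y
      show θ (θ⁻¹ (y : F g n)) ∈ H
      rw [← MulAut.mul_apply, mul_inv_cancel, MulAut.one_apply]
      exact hC y.2
    refine ((Set.finite_iUnion key).image fun (χ : ↥(H.comap θ.toMonoidHom) → ℂ)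
      (y : ↥(C.comap (1 : MulAut (F g n)).toMonoidHom)) => χ ⟨θ⁻¹ (y : F g n), hmem y⟩).subset ?_
    rintro _ ⟨φ, hφ, hφ0, hφC, -, hφ', rfl⟩
    have hψH : ∀ y ∈ H.comap θ.toMonoidHom, (φ * θ) y ∈ H := by
      intro y hy
      have h1 : φ (θ y) * ((1 : MulAut (F g n)) (θ y))⁻¹ * θ y ∈ H :=
        H.mul_mem (hC (hφC (θ y))) hy
      rwa [MulAut.one_apply, inv_mul_cancel_right] at h1
    refine ⟨fun y : ↥(H.comap θ.toMonoidHom) =>
      (σ ⟨(φ * θ) y, hψH y y.2⟩ : Matrix (Fin r) (Fin r) ℂ).trace, ?_, ?_⟩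
    · refine Set.mem_iUnion.2 ⟨wty w (φ * θ), φ * θ, LGP.MC_mul hφ hθ, ?_, ?_, rfl, hψH, rfl⟩
      · rw [MulAut.mul_apply, hθ0, hφ0]
      · intro y
        exact hC (hφC (θ y))
    · funext y
      have e0 : θ (θ⁻¹ (y : F g n)) = y := by
        rw [← MulAut.mul_apply, mul_inv_cancel, MulAut.one_apply]
      have e : (φ * θ) (θ⁻¹ (y : F g n)) = φ y := by
        rw [MulAut.mul_apply, e0]
      show (σ ⟨(φ * θ) (θ⁻¹ (y : F g n)), _⟩ : Matrix (Fin r) (Fin r) ℂ).trace =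
        (σ (Subgroup.inclusion hC ⟨φ y, _⟩) : Matrix (Fin r) (Fin r) ℂ).trace
      congr 3
      exact Subtype.ext e

/-- **Theorem D** for several subgroups of finite index -/
theorem thmN (hD : St_Dek) (g n k R m : ℕ) (w : SurfaceGroup g → ZMod k) (hk : 0 < k)
    (hw : IsSpinStructure k w) (C : Subgroup (F g n)) [C.FiniteIndex]
    (H : Fin m → Subgroup (F g n)) (hC : ∀ j, C ≤ H j)
    (ρ : F g n →* GL (Fin R) ℂ) (r : Fin m → ℕ) (σ : ∀ j, H j →* GL (Fin (r j)) ℂ)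
    (hσ : ∀ j, CndN (H j) (r j) (σ j))
    (h1 : ∃ d, ∀ (y : C) (z : ℂ), (ρ (y : F g n) : Matrix (Fin R) (Fin R) ℂ).charpoly.IsRoot z →
      z ∈ Wd d {u | ∃ j,
        (σ j ⟨y, hC j y.2⟩ : Matrix (Fin (r j)) (Fin (r j)) ℂ).charpoly.IsRoot u})
    (h2 : ((∀ (j : Fin m) (y : H j), NS (y : F g n) → w (prj g n y) = 0 →
        Pool.Agent.HZ.Quasi (ρ (y : F g n))) ∧
        ∃ d, ∀ (y : C) (j : Fin m) (z : ℂ),
          (σ j ⟨y, hC j y.2⟩ : Matrix (Fin (r j)) (Fin (r j)) ℂ).charpoly.IsRoot z →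
          z ∈ Wd d {u | (ρ (y : F g n) : Matrix (Fin R) (Fin R) ℂ).charpoly.IsRoot u}) ∨
      ∀ j, {z : ℂ | ∃ y : H j, NS (y : F g n) ∧ w (prj g n y) = 0 ∧
        z = (σ j y : Matrix (Fin (r j)) (Fin (r j)) ℂ).trace}.Finite) :
    {χ : F g n → ℂ | ∃ φ ∈ MC g n,
      χ = fun y => (ρ (φ y) : Matrix (Fin R) (Fin R) ℂ).trace}.Finite := by
  have hfi : ∀ j, (H j).FiniteIndex := fun j => Subgroup.finiteIndex_of_le (hC j)
  have hfin : ∀ j, {z : ℂ | ∃ y : H j, NS (y : F g n) ∧ w (prj g n y) = 0 ∧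
      z = (σ j y : Matrix (Fin (r j)) (Fin (r j)) ℂ).trace}.Finite := by
    rcases h2 with ⟨h2, d, h3⟩ | h2
    · intro j
      refine (finite_traces (H j) (σ j) {y | NS (y : F g n) ∧ w (prj g n y) = 0}
        (fun y hy => quasi_of_words (hC j) ρ (σ j) (fun y z hz => h3 y j z hz) y
          (h2 j y hy.1 hy.2))).subset ?_
      rintro z ⟨y, hy1, hy2, rfl⟩
      exact ⟨y, ⟨hy1, hy2⟩, rfl⟩
    · exact h2
  obtain ⟨d, h1⟩ := h1
  have hC' : ∀ j, C.normalCore ≤ H j := fun j => C.normalCore_le.trans (hC j)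
  exact LGT.todH thm_Fnn thm_Mci g n k R m d w hk C.normalCore C.normalCore le_rfl 1
    LGP.MC_one rfl ρ r (fun j => (σ j).comp (Subgroup.inclusion (hC' j)))
    (fun y z hz => h1 ⟨y, C.normalCore_le y.2⟩ z hz)
    fun j τ => blk hD g n k (r j) w hk hw C.normalCore (H j) (hC' j) (σ j) (hσ j) (hfin j) τ

end Pool.Agent.ARH
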