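import Pool.Agent.PWE.Orb
import Pool.Agent.PWE.Shf

/-!
# Campaign ARH: moving the handles at a set of places to the right end, and the union bound (helper59)
-/

set_option autoImplicit false

open scoped BigOperators

namespace Pool.Agent.ARH

open Pool.Agent.PW Pool.Agent.PWM Pool.Agent.PWB Pool.Agent.PWX Pool.Agent.PWF Pool.Agent.PWL
  Pool.Agent.PWY Pool.Agent.PWE
open scoped Classical

variable {G : Type} [Group G]

/-- The handles at the places `true` move to the right end unchanged, the others are conjugated:
first entry the others, second entry the chosen ones. -/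
def mvt : List Bool → List (G × G) → List (G × G) × List (G × G)
  | [], L => (L, [])
  | _ :: _, [] => ([], [])
  | false :: bs, p :: T => (p :: (mvt bs T).1, (mvt bs T).2)
  | true :: bs, p :: T => ((mvt bs T).1.map (cj (dd p)), p :: (mvt bs T).2)

theorem cj_cj (x y : G) (p : G × G) : cj x (cj y p) = cj (x * y) p := by
  simp [cj, mul_assoc]

theorem cj_one (p : G × G) : cj (1 : G) p = p := by simp [cj]

theorem cj_inj (c : G) : Function.Injective (cj c) := by
  intro p q h
  have h1 : cj c⁻¹ (cj c p) = cj c⁻¹ (cj c q) := by rw [h]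
  rwa [cj_cj, cj_cj, inv_mul_cancel, cj_one, cj_one] at h1

theorem map_cj_inv (p : G × G) (J : List (G × G)) :
    (J.map (cj (dd p))).map (cj (dd p)⁻¹) = J := by
  rw [List.map_map]
  have : (cj (dd p)⁻¹ ∘ cj (dd p) : G × G → G × G) = id := by
    funext q
    rw [Function.comp_apply, cj_cj, inv_mul_cancel, cj_one]
    rfl
  rw [this, List.map_id]

theorem lg_cons [Finite G] (p : G × G) {S S' : List (G × G)} (h : LG S S') :
    LG (p :: S) (p :: S') := by
  have h1 := PWH.bBas.2.2.2.1 [p] S S' [] h
  simpa only [List.append_nil, List.cons_append, List.nil_append] using h1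

theorem mvt_lg [Finite G] : ∀ (bs : List Bool) (L : List (G × G)),
    LG L ((mvt bs L).1 ++ (mvt bs L).2)
  | [], L => by
    rw [mvt, List.append_nil]
    exact PWH.bBas.1 _
  | _ :: _, [] => by
    rw [mvt]
    exact PWH.bBas.1 _
  | false :: bs, p :: T => by
    rw [mvt]
    exact lg_cons p (mvt_lg bs T)
  | true :: bs, p :: T => by
    have hf : Fintype G := Fintype.ofFinite G
    rw [mvt]
    have h1 := eFrt.1 ((mvt bs T).1.map (cj (dd p))) (mvt bs T).2 p
    rw [map_cj_inv] at h1
    exact lg_trans (lg_cons p (mvt_lg bs T)) (lg_symm h1)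

theorem mvt_len : ∀ (bs : List Bool) (L : List (G × G)), bs.length = L.length →
    (mvt bs L).2.length = bs.count true ∧ (mvt bs L).1.length = bs.count false
  | [], L, h => by
    have : L = [] := List.length_eq_zero_iff.1 h.symm
    subst this
    simp [mvt]
  | _ :: _, [], h => by simp at h
  | false :: bs, p :: T, h => by
    have ih := mvt_len bs T (by simpa using h)
    rw [mvt]
    simp [ih.1, ih.2]
  | true :: bs, p :: T, h => by
    have ih := mvt_len bs T (by simpa using h)
    rw [mvt]
    simp [ih.1, ih.2]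

theorem mvt_inj : ∀ (bs : List Bool) (L L' : List (G × G)), L.length = L'.length →
    mvt bs L = mvt bs L' → L = L'
  | [], L, L', _, h => by
    rw [mvt, mvt] at h
    exact (Prod.mk.inj h).1
  | _ :: _, [], L', h, _ => by
    exact (List.length_eq_zero_iff.1 h.symm).symm
  | _ :: _, p :: T, [], h, _ => by simp at h
  | false :: bs, p :: T, p' :: T', h, h' => by
    rw [mvt, mvt] at h'
    obtain ⟨h1, h2⟩ := Prod.mk.inj h'
    obtain ⟨h3, h4⟩ := List.cons.inj h1
    rw [h3, mvt_inj bs T T' (by simpa using h) (Prod.ext h4 h2)]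
  | true :: bs, p :: T, p' :: T', h, h' => by
    rw [mvt, mvt] at h'
    obtain ⟨h1, h2⟩ := Prod.mk.inj h'
    obtain ⟨h3, h4⟩ := List.cons.inj h2
    subst h3
    have h5 := (List.map_injective_iff.2 (cj_inj _)) h1
    rw [mvt_inj bs T T' (by simpa using h) (Prod.ext h5 h4)]

/-- The law of the list of the unchosen handles is that of the first handles. -/
theorem mvt_law [Fintype G] (M : List (G × G)) (bs : List Bool) (hb : bs.length = M.length)
    (P : List (G × G) → Prop) :
    ((cls M).filter fun L => P (mvt bs L).1).card =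
      ((cls M).filter fun L => P (L.take (bs.count false))).card := by
  let f : List (G × G) → List (G × G) := fun L => (mvt bs L).1 ++ (mvt bs L).2
  have hlen : ∀ L ∈ cls M, (mvt bs L).1.length = bs.count false := fun L hL =>
    (mvt_len bs L (by rw [hb, len_cls hL])).2
  have hmaps : ∀ L ∈ cls M, f L ∈ cls M := fun L hL =>
    mem_cls.2 (lg_trans (mem_cls.1 hL) (mvt_lg bs L))
  have hinj : ∀ L ∈ cls M, ∀ L' ∈ cls M, f L = f L' → L = L' := by
    intro L hL L' hL' h
    obtain ⟨h1, h2⟩ := List.append_inj h ((hlen L hL).trans (hlen L' hL').symm)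
    exact mvt_inj bs L L' (by rw [len_cls hL, len_cls hL']) (Prod.ext h1 h2)
  have himg : (cls M).image f = cls M := by
    apply Finset.eq_of_subset_of_card_le
    · intro L hL
      obtain ⟨L', hL', rfl⟩ := Finset.mem_image.1 hL
      exact hmaps L' hL'
    · rw [Finset.card_image_of_injOn]
      intro L hL L' hL' h
      exact hinj L (Finset.mem_coe.1 hL) L' (Finset.mem_coe.1 hL') h
  have h1 : ((cls M).filter fun L => P (L.take (bs.count false))) =
      ((cls M).filter fun L => P (mvt bs L).1).image f := by
    ext L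
    constructor
    · intro h
      obtain ⟨hL, hP⟩ := Finset.mem_filter.1 h
      rw [← himg] at hL
      obtain ⟨L', hL', rfl⟩ := Finset.mem_image.1 hL
      refine Finset.mem_image.2 ⟨L', Finset.mem_filter.2 ⟨hL', ?_⟩, rfl⟩
      rwa [List.take_left' (hlen L' hL')] at hP
    · intro h
      obtain ⟨L', h', rfl⟩ := Finset.mem_image.1 h
      obtain ⟨hL', hP⟩ := Finset.mem_filter.1 h'
      refine Finset.mem_filter.2 ⟨hmaps L' hL', ?_⟩
      rw [List.take_left' (hlen L' hL')]
      exact hP
  rw [h1, Finset.card_image_of_injOn]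
  intro L hL L' hL' h
  exact hinj L (Finset.mem_filter.1 (Finset.mem_coe.1 hL)).1 L'
    (Finset.mem_filter.1 (Finset.mem_coe.1 hL')).1 h

end Pool.Agent.ARH
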