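import Pool.Agent.ARH.St
import Pool.Agent.NLG.Blo

/-!
# Campaign ARH: the splitting with given lengths, and the handles become full (`k = 1`)

Helper33, for MP_0707f5_ag.
-/

set_option autoImplicit false

namespace Pool.Agent.ARH

open Module
open SpQ (Hd WReach)
open EKL (alg Fl Ir)
open EKH (Orb pos)
open LGC (It hl GI IReach)

section
variable {K V₁ V₂ : Type} [Field K] [IsAlgClosed K] [AddCommGroup V₁]
  [Module K V₁] [FiniteDimensional K V₁] [Nontrivial V₁] [AddCommGroup V₂] [Module K V₂]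
  [FiniteDimensional K V₂] [Nontrivial V₂] {Γ : Type} [Group Γ]

/-- `Spx` without a context -/
theorem spx0 (hX : St_Spx) (Λ : Subgroup Γ) [Λ.FiniteIndex]
    (R : Λ →* Module.End K V₁ × Module.End K V₂) (r ℓ : ℕ) (B : List (Hd Γ 1)) (hi : Ir R)
    (h1 : finrank K V₁ ≤ r) (h2 : finrank K V₂ ≤ r) (hΛ : Λ.index ≤ 2 ^ ℓ)
    (hB : Mm r ℓ ≤ B.length) (hF : Fl R (SpQ.E B)) :
    ∃ B' P : List (Hd Γ 1), WReach B (B' ++ P) ∧ P.length ≤ 8 * r + k₀ ℓ ∧
      Fl R (SpQ.E B') ∧ Fl R (SpQ.E P) := by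
  obtain ⟨X', B', P, e1, e2, e3, e4, e5⟩ := hX K V₁ V₂ Γ Λ R r ℓ [] B hi h1 h2 hΛ hB
    (by
      rw [List.nil_append, LGC.GI_hl]
      exact fun g hg => ⟨g, hg, by
        rw [inv_mul_cancel]
        exact Λ.one_mem⟩)
    (by rwa [List.nil_append, LGC.GI_hl])
  rw [List.nil_append] at e1
  obtain ⟨L', h3, h4⟩ := NLG.hl_reach e1
  unfold LGC.hl at h3
  obtain ⟨s, t, rfl, h5, h6⟩ := List.map_eq_append_iff.1 h3.symm
  have h7 : t = B' ++ P := List.map_injective_iff.2 Sum.inl_injective h6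
  subst h7
  have h8 := h4.length_eq
  rw [List.length_append, List.length_append] at h8
  obtain rfl : s = [] := by
    rw [← List.length_eq_zero_iff]
    omega
  obtain rfl : X' = [] := h5.symm
  refine ⟨B', P, ?_, e3, ?_, e5⟩
  · simpa using h4
  · rwa [List.nil_append, LGC.GI_hl] at e4

/-- **`Spl` for `k = 1`** -/
theorem spl1 (hX : St_Spx) (Λ : Subgroup Γ) [Λ.FiniteIndex]
    (R : Λ →* Module.End K V₁ × Module.End K V₂) (r ℓ a : ℕ) (B : List (Hd Γ 1)) (hi : Ir R)
    (h1 : finrank K V₁ ≤ r) (h2 : finrank K V₂ ≤ r) (hΛ : Λ.index ≤ 2 ^ ℓ)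
    (ha : 8 * r + k₀ ℓ ≤ a) (hB : a + Mm r ℓ ≤ B.length) (hF : Fl R (SpQ.E B)) :
    ∃ B' P : List (Hd Γ 1), WReach B (B' ++ P) ∧ P.length = a ∧ Fl R (SpQ.E B') ∧
      Fl R (SpQ.E P) := by
  have key : ∀ n : ℕ, ∀ B' P : List (Hd Γ 1), WReach B (B' ++ P) → Fl R (SpQ.E B') →
      Fl R (SpQ.E P) → P.length + n = a → ∃ B'' P' : List (Hd Γ 1), WReach B (B'' ++ P') ∧
        P'.length = a ∧ Fl R (SpQ.E B'') ∧ Fl R (SpQ.E P') := by
    intro n
    induction n using Nat.strong_induction_on with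
    | _ n ih =>
      intro B' P hr hF' hFP hn
      rcases Nat.eq_zero_or_pos n with rfl | hpos
      · exact ⟨B', P, hr, by omega, hF', hFP⟩
      have hlen := hr.length_eq
      rw [List.length_append] at hlen
      obtain ⟨B₂, P₂, hr2, hl2, hF2, hFP2⟩ := spx0 hX Λ R r ℓ B' hi h1 h2 hΛ (by omega) hF'
      have hr3 : WReach B (B₂ ++ (P₂ ++ P)) := by
        have h3 := hr.trans (SpQ.WReach.right hr2 P)
        rwa [List.append_assoc] at h3
      have hlen3 := hr3.length_eq
      rw [List.length_append, List.length_append] at hlen3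
      rcases Nat.eq_zero_or_pos P₂.length with h0 | h0
      · -- the trivial group is full
        have hP₂ : P₂ = [] := List.length_eq_zero_iff.1 h0
        subst hP₂
        have hbot : Fl R (⊥ : Subgroup Γ) := by rwa [SpQ.E_nil] at hFP2
        refine ⟨B₂.take (B₂.length - n), B₂.drop (B₂.length - n) ++ P, ?_, ?_,
          hbot.mono bot_le, hbot.mono bot_le⟩
        · rw [← List.append_assoc, List.take_append_drop]
          exact hr3
        · rw [List.length_append, List.length_drop]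
          rw [List.length_nil] at hlen3
          have hM : 0 < Mm r ℓ := by
            unfold Mm
            omega
          omega
      rcases Nat.lt_or_ge n P₂.length with h4 | h4
      · refine ⟨B₂ ++ P₂.take (P₂.length - n), P₂.drop (P₂.length - n) ++ P, ?_, ?_,
          hF2.mono ?_, hFP.mono ?_⟩
        · rw [List.append_assoc, ← List.append_assoc (P₂.take _), List.take_append_drop]
          exact hr3
        · rw [List.length_append, List.length_drop]
          omega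
        · rw [SpQ.E_append]
          exact le_sup_left
        · rw [SpQ.E_append]
          exact le_sup_right
      · refine ih (n - P₂.length) (by omega) B₂ (P₂ ++ P) hr3 hF2 (hFP.mono ?_) ?_
        · rw [SpQ.E_append]
          exact le_sup_right
        · rw [List.length_append]
          omega
  obtain ⟨B', P, hr, hl, hF', hFP⟩ := spx0 hX Λ R r ℓ B hi h1 h2 hΛ (by omega) hF
  exact key (a - P.length) B' P hr hF' hFP (by omega)

/-- **`Ini` for `k = 1`** -/
theorem ini1 (hR : St_Red) (hX : St_Spx) (Λ : Subgroup Γ) [Λ.FiniteIndex]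
    (R : Λ →* Module.End K V₁ × Module.End K V₂) (r ℓ : ℕ) (X : List (It Γ 1))
    (B : List (Hd Γ 1)) (hi : Ir R) (h1 : finrank K V₁ ≤ r) (h2 : finrank K V₂ ≤ r)
    (hΛ : Λ.index ≤ 2 ^ ℓ) (hB : Mm r ℓ ≤ B.length) (hF : Fl R (GI (X ++ hl B))) :
    ∃ (X' : List (It Γ 1)) (B' : List (Hd Γ 1)), IReach (X ++ hl B) (X' ++ hl B') ∧
      B'.length = B.length ∧ Fl R (SpQ.E B') := by
  have hM : 100 * (ℓ + 1) ≤ Mm r ℓ := by
    unfold Mm
    omega
  obtain ⟨X₁, B₁, hr, hl1, ho⟩ := hR Γ Λ ℓ X B hΛ (by omega)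
  have hGI := hr.GI_eq
  obtain ⟨X', B', P, e1, e2, -, -, e5⟩ := hX K V₁ V₂ Γ Λ R r ℓ X₁ B₁ hi h1 h2 hΛ (by omega)
    (by rwa [hGI]) (by rwa [hGI])
  refine ⟨X', B' ++ P, hr.trans e1, ?_, e5.mono ?_⟩
  · rw [List.length_append, e2, hl1]
  · rw [SpQ.E_append]
    exact le_sup_right

end

end Pool.Agent.ARH
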