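import Pool.Agent.EKH.Gro
import Pool.Agent.LGT.Fin
import Pool.Agent.NLG.Hit

/-!
# Campaign ARH: arbitrary subgroups of small index (MP_0707f5_ag)

Statements, `k = 1`.  `Λ` is a subgroup of `Γ` of index at most `2 ^ ℓ`, `R` a pair of irreducible
representations of `Λ` of dimensions `d₁`, `d₂`, and `d₁ + d₂ ≤ 2 r`.  A list of handles `B` is full if
`Fl R (SpQ.E B)`: the algebra of `Λ ⊓ E B` is the algebra of `Λ`.  All transitivity statements are about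
the orbit of the base coset (`EKH.Orb Λ C G`: the orbit of the base coset under `C` contains its orbit
under `G`).  The constants are generous; they can be changed if a proof needs it (mail helper21).
-/

set_option autoImplicit false

namespace Pool.Agent.ARH

open Module
open SpQ (Hd WReach)
open EKL (alg Fl Ir)
open EKH (Orb pos)
open LGC (It hl GI IReach)

/-- the length of a transitive block -/
def k₀ (ℓ : ℕ) : ℕ := 6 * (ℓ + 1)

/-- the number of handles which is enough for the splitting -/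
def Mm (r ℓ : ℕ) : ℕ := 1000 * (r + ℓ + 1)

/-- (Msk), helper1.  A random mask.  `k₀ ℓ ≤ |Q|` is not needed, only transitivity of `Q`.
Proof.  Let `o` be the orbit of the base coset under `E B`, `|o| ≤ 2 ^ ℓ`.  For lists `L = L₀ ++ Q`,
`|Q| = k₀ ℓ`, in the class of the image of `B` in the permutations of `o` and for a mask `c` on the positions
of `L₀` with `t` ones let `L₀ ~ A ++ J`, `A` the entries with `c = 0` unchanged, `J` the entries with `c = 1`,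
conjugated by elements of `E A`.  For a fixed `c` the map `L ↦ A ++ J ++ Q` is injective on the class, so the proportion of
the `L` with `J` not transitive is at most `(7/8) ^ t 2 ^ ℓ` (`PWE.St_Orb` and what precedes it); the sum over all `c` is
`(15/8) ^ m' 2 ^ ℓ`, `m' = |L₀|`.  The masks with `t < 2 k₀` are at most `(8/7) ^ (2 k₀) (15/8) ^ m'`.  So for some `L` with `Q` transitive there are
fewer than `2 ^ (m' - q)` bad masks, and one of the `2 ^ (m' - q)` masks which avoid `I` is good. -/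
def St_Msk : Prop := ∀ (Γ : Type) [Group Γ] (Λ : Subgroup Γ) [Λ.FiniteIndex] (ℓ q : ℕ)
  (B : List (Hd Γ 1)), Λ.index ≤ 2 ^ ℓ → 100 * (q + ℓ + 1) ≤ B.length →
  ∃ L₀ Q : List (Hd Γ 1), WReach B (L₀ ++ Q) ∧ Q.length ≤ k₀ ℓ ∧ Orb Λ (SpQ.E Q) (SpQ.E B) ∧
    ∀ I : Finset (Fin L₀.length), I.card ≤ q → ∃ A J : List (Hd Γ 1), WReach L₀ (A ++ J) ∧
      SpQ.E (pos L₀ I) ≤ SpQ.E A ∧ Orb Λ (SpQ.E J) (SpQ.E B) ∧ 2 * k₀ ℓ ≤ J.length

/-- (Qbl) Two transitive blocks.  Proof: in the class of the image of `J` the proportion of the lists with the first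
(the last) `k₀ ℓ` handles not transitive on the orbit of `E J` is at most `(7/8) ^ (k₀ ℓ) 2 ^ ℓ < 1/2`. -/
def St_Qbl : Prop := ∀ (Γ : Type) [Group Γ] (Λ : Subgroup Γ) [Λ.FiniteIndex] (ℓ : ℕ)
  (J : List (Hd Γ 1)), Λ.index ≤ 2 ^ ℓ → 2 * k₀ ℓ ≤ J.length →
  ∃ Q₀ B₃ Q₁ : List (Hd Γ 1), WReach J (Q₀ ++ B₃ ++ Q₁) ∧ Q₀.length = k₀ ℓ ∧ Q₁.length = k₀ ℓ ∧
    Orb Λ (SpQ.E Q₀) (SpQ.E J) ∧ Orb Λ (SpQ.E Q₁) (SpQ.E J)

/-- (Spx) SPLIT with a context `X`.  Proof.  `Msk` with `q = 8 r`: `B ~ L₀ ++ Q`.  `EKH.ess` with `C = GI X ⊔ E Q` and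
`L₀` gives `I`, `|I| ≤ 4 (d₁ - 1) + 4 (d₂ - 1) + 1 ≤ 8 r` with `Fl (GI X ⊔ E Q ⊔ E (pos L₀ I))`; `L₀ ~ A ++ J`, and `J ~ Q₀ ++ B₃ ++ Q₁` by `Qbl`.
Move `X ++ hl A` over `Q₀` to the right, and `Q₁` over `Q` to the right (`IReach.move_block` and its mirror image, the
moved part unchanged in the first case, `Q₁` conjugated in the second; a conjugate of a transitive
block by an element of the group is transitive):
`X ++ hl B ~ hl Q₀' ++ (X ++ hl (A ++ B₃ ++ Q)) ++ hl Q₁'`, the middle is full.  `EKH` GROW with context inside the middle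
(`C₀ = E Q₀'`, `C₁ = E Q₁'`): `~ X' ++ hl (B'' ++ P)`, `Fl (E Q₀' ⊔ GI (X' ++ hl B''))`, `Fl (E Q₁' ⊔ E P)`, `|P| ≤ 8 r`.  Move `Q₀'` over
`X'` to the right: `X'` is unchanged if `X'` moves to the left over `Q₀'` (`Q₀'` unchanged: then `X'` is conjugated by an element of `E Q₀'`); the group generated by all is the same. -/
def St_Spx : Prop := ∀ (K V₁ V₂ : Type) [Field K] [IsAlgClosed K] [AddCommGroup V₁]
  [Module K V₁] [FiniteDimensional K V₁] [Nontrivial V₁] [AddCommGroup V₂] [Module K V₂]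
  [FiniteDimensional K V₂] [Nontrivial V₂] (Γ : Type) [Group Γ] (Λ : Subgroup Γ) [Λ.FiniteIndex]
  (R : Λ →* Module.End K V₁ × Module.End K V₂) (r ℓ : ℕ) (X : List (It Γ 1))
  (B : List (Hd Γ 1)), Ir R → finrank K V₁ ≤ r → finrank K V₂ ≤ r → Λ.index ≤ 2 ^ ℓ →
  Mm r ℓ ≤ B.length → Orb Λ (SpQ.E B) (GI (X ++ hl B)) → Fl R (GI (X ++ hl B)) →
  ∃ (X' : List (It Γ 1)) (B' P : List (Hd Γ 1)), IReach (X ++ hl B) (X' ++ hl (B' ++ P)) ∧
    B'.length + P.length = B.length ∧ P.length ≤ 8 * r + k₀ ℓ ∧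
    Fl R (GI (X' ++ hl B')) ∧ Fl R (SpQ.E P)

/-- (Spl) SPLIT without context, with weights, with given lengths.  Proof.  For `k = 1`: `Spx` with `X = []` (`NLG.hl_reach`) gives
`B ~ B' ++ P`, both full, `1 ≤ |P| ≤ 8 r + k₀ ℓ =: c`; apply it again to `B'` (`|B'| ≥ Mm r ℓ` as long as `|P| ≤ a`):
`B' ~ B'' ++ P''`, both full; as soon as `|P''| + |P| ≥ a` cut `P'' = U ++ V` with `|V| + |P| = a`: `B'' ++ U` and `V ++ P` are full.
General `k`: forget the weights, and lift the moves (helper20). -/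
def St_Spl : Prop := ∀ (K V₁ V₂ : Type) [Field K] [IsAlgClosed K] [AddCommGroup V₁]
  [Module K V₁] [FiniteDimensional K V₁] [Nontrivial V₁] [AddCommGroup V₂] [Module K V₂]
  [FiniteDimensional K V₂] [Nontrivial V₂] (Γ : Type) [Group Γ] (k : ℕ) (Λ : Subgroup Γ)
  [Λ.FiniteIndex] (R : Λ →* Module.End K V₁ × Module.End K V₂) (r ℓ a : ℕ)
  (B : List (Hd Γ k)), Ir R → finrank K V₁ ≤ r → finrank K V₂ ≤ r → Λ.index ≤ 2 ^ ℓ →
  8 * r + k₀ ℓ ≤ a → a + Mm r ℓ ≤ B.length → Fl R (SpQ.E B) →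
  ∃ B' P : List (Hd Γ k), WReach B (B' ++ P) ∧ P.length = a ∧ Fl R (SpQ.E B') ∧ Fl R (SpQ.E P)

/-- (Bsd), helper1.  The part of `Λ` in the group of a long list is generated by letters (all weights).
Proof: PWG/StD (`Bsd`, `Bsc`, `Tbs`) with the moves of the list of handles only. -/
def St_Bsd : Prop := ∀ (Γ : Type) [Group Γ] (Λ : Subgroup Γ) [Λ.FiniteIndex] (ℓ : ℕ)
  (J : List (Hd Γ 1)), Λ.index ≤ 2 ^ ℓ → 400 * (ℓ + 1) ≤ J.length →
  Λ ⊓ SpQ.E J ≤ Subgroup.closure {y | y ∈ Λ ∧ y ∈ SpQ.fc J (-1)}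

/-- (Hnd), helper1.  A handle with both entries in `Λ`, and a long rest (so two of them by a second application). -/
def St_Hnd : Prop := ∀ (Γ : Type) [Group Γ] (Λ : Subgroup Γ) [Λ.FiniteIndex] (ℓ : ℕ)
  (J : List (Hd Γ 1)), Λ.index ≤ 2 ^ ℓ → 200 * (ℓ + 1) ≤ J.length →
  ∃ (J' : List (Hd Γ 1)) (h : Hd Γ 1), WReach J (J' ++ [h]) ∧ h.1.1 ∈ Λ ∧ h.1.2 ∈ Λ

/-- (Bsk), helper20.  As `Bsd`, with weights. -/
def St_Bsk : Prop := ∀ (Γ : Type) [Group Γ] (k : ℕ) (Λ : Subgroup Γ) [Λ.FiniteIndex] (ℓ : ℕ)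
  (J : List (Hd Γ k)), Λ.index ≤ 2 ^ ℓ → 800 * (ℓ + 1) ≤ J.length →
  Λ ⊓ SpQ.E J ≤ Subgroup.closure {y | y ∈ Λ ∧ y ∈ SpQ.fc J (-1)} ∧
  (∃ y ∈ Λ, y ∈ SpQ.fc J (-1)) ∧ ∃ y ∈ Λ, y ∈ SpQ.fc J 0

/-- (Gen) The hypothesis of `NLG.hdet`.  Proof.  `Spl` with `a = 800 (r + ℓ + 1)`: `B ~ B' ++ P`, both full.  `Bsk` for `P`;
a letter `y` of `P` of weight `-1` is a spare letter of `B`: `P ~ j ++ [(y, z)]`, `B ~ (B' ++ j) ++ [(y, z)]`, and
`B' ++ j` is full.  A subspace which is stable under the spare letters is stable under `Λ ⊓ E P`, and `P` is full (`NLG.fu_iff`). -/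
def St_Gen : Prop := ∀ (Γ : Type) [Group Γ] (k : ℕ) (Λ : Subgroup Γ) [Λ.FiniteIndex] (r ℓ : ℕ)
  (ρ₁ ρ₂ : Λ →* GL (Fin r) ℂ), Pool.Agent.HZ.Irr ρ₁.range → Pool.Agent.HZ.Irr ρ₂.range →
  1 ≤ r → Λ.index ≤ 2 ^ ℓ →
  NLG.Gen (LGP.prR ρ₁ ρ₂) (fun _ : List (Hd Γ k) => True) (2 * Mm r ℓ)

/-- (Red), helper1.  Punctures: after moves the handles are transitive (`PWE.thm_Red` in the language of lists). -/
def St_Red : Prop := ∀ (Γ : Type) [Group Γ] (Λ : Subgroup Γ) [Λ.FiniteIndex] (ℓ : ℕ)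
  (X : List (It Γ 1)) (B : List (Hd Γ 1)), Λ.index ≤ 2 ^ ℓ → 100 * (ℓ + 1) ≤ B.length →
  ∃ (X' : List (It Γ 1)) (B' : List (Hd Γ 1)), IReach (X ++ hl B) (X' ++ hl B') ∧
    B'.length = B.length ∧ Orb Λ (SpQ.E B') (GI (X ++ hl B))

/-- (Ini) After moves the handles are full.  Proof: for `k = 1` `Red`, then `Spx`: `X ++ hl B ~ X' ++ hl (B' ++ P)` and `P` is
full.  General `k`: forget the weights, and lift the moves (helper20). -/
def St_Ini : Prop := ∀ (K V₁ V₂ : Type) [Field K] [IsAlgClosed K] [AddCommGroup V₁]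
  [Module K V₁] [FiniteDimensional K V₁] [Nontrivial V₁] [AddCommGroup V₂] [Module K V₂]
  [FiniteDimensional K V₂] [Nontrivial V₂] (Γ : Type) [Group Γ] (k : ℕ) (Λ : Subgroup Γ)
  [Λ.FiniteIndex] (R : Λ →* Module.End K V₁ × Module.End K V₂) (r ℓ : ℕ) (X : List (It Γ k))
  (B : List (Hd Γ k)), Ir R → finrank K V₁ ≤ r → finrank K V₂ ≤ r → Λ.index ≤ 2 ^ ℓ →
  Mm r ℓ ≤ B.length → Fl R (GI (X ++ hl B)) →
  ∃ (X' : List (It Γ k)) (B' : List (Hd Γ k)), IReach (X ++ hl B) (X' ++ hl B') ∧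
    B'.length = B.length ∧ Fl R (SpQ.E B')

/-- (Dek) The determination theorem for an abstract list.  Proof.  `Ini` gives `B'` full; `Spl` gives `B' ~ B'' ++ P`, both full,
`|P| = 3 Mm r ℓ`, and `NLG.hdet` with `Gen`; `r = 0` is trivial. -/
def St_Dek : Prop := ∀ (Γ : Type) [Group Γ] (k : ℕ) (Λ : Subgroup Γ) [Λ.FiniteIndex] (r ℓ : ℕ)
  (ρ₁ ρ₂ : Λ →* GL (Fin r) ℂ) (X : List (It Γ k)) (B : List (Hd Γ k)),
  Pool.Agent.HZ.Irr ρ₁.range → Pool.Agent.HZ.Irr ρ₂.range → Λ.index ≤ 2 ^ ℓ →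
  7 * Mm r ℓ ≤ B.length → GI (X ++ hl B) = ⊤ →
  (∀ (X' : List (It Γ k)) (B' : List (Hd Γ k)) (y : Λ), IReach (X ++ hl B) (X' ++ hl B') →
    (y : Γ) ∈ SpQ.fc B' 0 → (ρ₁ y : Matrix (Fin r) (Fin r) ℂ).trace =
    (ρ₂ y : Matrix (Fin r) (Fin r) ℂ).trace) →
  ∀ y, (ρ₁ y : Matrix (Fin r) (Fin r) ℂ).trace = (ρ₂ y : Matrix (Fin r) (Fin r) ℂ).trace

/-- (Deh) The determination theorem.  Proof.  `Γ = F g n`, the standard list `X ++ hl B` (punctures and handles) has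
`GI = ⊤`; the letters are non-separating simple loops (as in `EKL.vkk`). -/
def St_Deh : Prop := ∀ (g n r ℓ : ℕ) (H : Subgroup (LGP.F g n)) [H.FiniteIndex],
  H.index ≤ 2 ^ ℓ → 7 * Mm r ℓ ≤ g → LGT.Det H r

end Pool.Agent.ARH
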