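import Pool.Agent.ARH.Dek
import Pool.Agent.ARH.Lft
import Pool.Agent.LGC.Vek

/-!
# Campaign ARH, towers: `Λ ≤ N`, `N` normal, killed handles

Statements and their assembly.  `N` is a normal subgroup of `Γ`, the handles of `B` are killed by `N`
(their entries are in `N`), `Λ ≤ N` has finite index in `Γ` and relative index at most `2 ^ ℓ` in `N`.
The splitting of full lists of handles and the spare letters (`St_Spl`, `St_Gen`) are used for the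
group `N` in the place of `Γ`; only the beginning is new: after moves of items the killed handles are
full.

Helper41, for MP_0707f5_ag.
-/

set_option autoImplicit false

namespace Pool.Agent.ARH

open Module
open SpQ (Hd WReach WExt)
open EKL (alg Fl Ir prE)
open EKH (Orb)
open LGC (It hl GI IReach Kl)

/-- (RedN), helper1 (`LGU.redN`, from `LGU.St_Lgw`).  After moves the killed handles are transitive on
`N ⧸ Λ`. -/
def St_RedN : Prop := ∀ (Γ : Type) [Group Γ] (N Λ : Subgroup Γ) [N.Normal] [Λ.FiniteIndex] (ℓ : ℕ)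
  (X : List (It Γ 1)) (B : List (Hd Γ 1)), Λ.relIndex N ≤ 2 ^ ℓ → (∀ h ∈ B, Kl N h) →
  100 * (ℓ + 1) ≤ B.length → GI (X ++ hl B) = ⊤ →
  ∃ (X' : List (It Γ 1)) (B' : List (Hd Γ 1)), IReach (X ++ hl B) (X' ++ hl B') ∧
    B'.length = B.length ∧ (∀ h ∈ B', Kl N h) ∧ Orb Λ (SpQ.E B') N

/-- (In1), helper33.  After moves the killed handles are full, `k = 1`.
Proof (helper33).  `RedN`; `Msk` and `Qbl` inside `N`; the list `X ++ hl (A ++ Q₀ ++ B₃ ++ Q)` is full and next to the block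
`Q₁'`, which is transitive on `N ⧸ Λ`; GROW inside this list with the context
`E Q₁'`.  `X` is not moved over a block (a conjugate of a transitive block by an element
outside `N` need not be transitive). -/
def St_In1 : Prop := ∀ (K V₁ V₂ : Type) [Field K] [IsAlgClosed K] [AddCommGroup V₁]
  [Module K V₁] [FiniteDimensional K V₁] [Nontrivial V₁] [AddCommGroup V₂] [Module K V₂]
  [FiniteDimensional K V₂] [Nontrivial V₂] (Γ : Type) [Group Γ] (N Λ : Subgroup Γ) [N.Normal]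
  [Λ.FiniteIndex] (R : Λ →* Module.End K V₁ × Module.End K V₂) (r ℓ : ℕ) (X : List (It Γ 1))
  (B : List (Hd Γ 1)), Ir R → finrank K V₁ ≤ r → finrank K V₂ ≤ r → Λ ≤ N →
  Λ.relIndex N ≤ 2 ^ ℓ → (∀ h ∈ B, Kl N h) → Mm r ℓ ≤ B.length → GI (X ++ hl B) = ⊤ →
  ∃ (X' : List (It Γ 1)) (B' : List (Hd Γ 1)), IReach (X ++ hl B) (X' ++ hl B') ∧
    B'.length = B.length ∧ (∀ h ∈ B', Kl N h) ∧ Fl R (SpQ.E B')

/-- (IniN) After moves the killed handles are full. -/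
def St_IniN : Prop := ∀ (K V₁ V₂ : Type) [Field K] [IsAlgClosed K] [AddCommGroup V₁]
  [Module K V₁] [FiniteDimensional K V₁] [Nontrivial V₁] [AddCommGroup V₂] [Module K V₂]
  [FiniteDimensional K V₂] [Nontrivial V₂] (Γ : Type) [Group Γ] (k : ℕ) (N Λ : Subgroup Γ)
  [N.Normal] [Λ.FiniteIndex] (R : Λ →* Module.End K V₁ × Module.End K V₂) (r ℓ : ℕ)
  (X : List (It Γ k)) (B : List (Hd Γ k)), Ir R → finrank K V₁ ≤ r → finrank K V₂ ≤ r → Λ ≤ N →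
  Λ.relIndex N ≤ 2 ^ ℓ → (∀ h ∈ B, Kl N h) → Mm r ℓ ≤ B.length → GI (X ++ hl B) = ⊤ →
  ∃ (X' : List (It Γ k)) (B' : List (Hd Γ k)), IReach (X ++ hl B) (X' ++ hl B') ∧
    B'.length = B.length ∧ (∀ h ∈ B', Kl N h) ∧ Fl R (SpQ.E B')

/-- (Dkn) The determination theorem for `Λ ≤ N`. -/
def St_Dkn : Prop := ∀ (Γ : Type) [Group Γ] (k : ℕ) (N Λ : Subgroup Γ) [N.Normal]
  [Λ.FiniteIndex] (r ℓ : ℕ) (ρ₁ ρ₂ : Λ →* GL (Fin r) ℂ) (X : List (It Γ k)) (B : List (Hd Γ k)),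
  Pool.Agent.HZ.Irr ρ₁.range → Pool.Agent.HZ.Irr ρ₂.range → Λ ≤ N → Λ.relIndex N ≤ 2 ^ ℓ →
  (∀ h ∈ B, Kl N h) → 7 * Mm r ℓ ≤ B.length → GI (X ++ hl B) = ⊤ →
  (∀ (X' : List (It Γ k)) (B' : List (Hd Γ k)) (y : Λ), IReach (X ++ hl B) (X' ++ hl B') →
    (y : Γ) ∈ SpQ.fc B' 0 → (ρ₁ y : Matrix (Fin r) (Fin r) ℂ).trace =
    (ρ₂ y : Matrix (Fin r) (Fin r) ℂ).trace) →
  ∀ y, (ρ₁ y : Matrix (Fin r) (Fin r) ℂ).trace = (ρ₂ y : Matrix (Fin r) (Fin r) ℂ).trace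

theorem iniN (hI : St_In1) : St_IniN := by
  intro K V₁ V₂ _ _ _ _ _ _ _ _ _ _ Γ _ k N Λ _ _ R r ℓ X B hi h1 h2 hΛN hΛ hk hB hF
  have hGI : GI (X.map LGT.ifg ++ hl (B.map LGT.fgt)) = GI (X ++ hl B) := by
    rw [← LGT.hl_fgt, ← List.map_append, LGT.GI_fgt]
  have hk' : ∀ h ∈ B.map (LGT.fgt (Γ := Γ) (k := k)), Kl N h := by
    intro h hh
    obtain ⟨h', hh', rfl⟩ := List.mem_map.1 hh
    exact hk h' hh'
  obtain ⟨X₂, B₂, e1, e2, e3, e4⟩ := hI K V₁ V₂ Γ N Λ R r ℓ (X.map LGT.ifg) (B.map LGT.fgt) hi h1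
    h2 hΛN hΛ hk' (by rwa [List.length_map]) (by rwa [hGI])
  obtain ⟨X', B', h6, h7, h8⟩ := LGT.ireach_lift_hl e1
  refine ⟨X', B', h6, ?_, ?_, ?_⟩
  · have h9 := congrArg List.length h8
    rw [List.length_map] at h9 e2
    omega
  · intro h hh
    have h9 : LGT.fgt h ∈ B'.map LGT.fgt := List.mem_map_of_mem hh
    rw [h8] at h9
    exact e3 _ h9
  · rw [← LGT.E_fgt, h8]
    exact e4

section res
variable {Γ : Type} [Group Γ] {N Λ : Subgroup Γ}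

/-- `Λ` as a subgroup of `N` -/
noncomputable def ein (h : Λ ≤ N) : ↥(Λ.subgroupOf N) →* Λ :=
  (Subgroup.subgroupOfEquivOfLe h).toMonoidHom

theorem ein_coe (h : Λ ≤ N) (x : ↥(Λ.subgroupOf N)) : ((ein h x : Λ) : Γ) = ((x : N) : Γ) := rfl

theorem ein_surj (h : Λ ≤ N) : Function.Surjective (ein h) :=
  (Subgroup.subgroupOfEquivOfLe h).surjective

/-- the algebras do not change -/
theorem alg_ein {K M : Type*} [Field K] [Ring M] [Algebra K M] (h : Λ ≤ N) (R : Λ →* M)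
    (G : Subgroup N) : alg K (R.comp (ein h)) (G.subgroupOf (Λ.subgroupOf N)) =
      alg K R ((G.map N.subtype).subgroupOf Λ) := by
  unfold EKL.alg
  congr 1
  ext z
  constructor
  · rintro ⟨x, hx, rfl⟩
    exact ⟨ein h x, ⟨(x : N), hx, rfl⟩, rfl⟩
  · rintro ⟨y, ⟨x, hx, hxy⟩, rfl⟩
    have h1 : (x : Γ) = (y : Γ) := hxy
    have h2 : x ∈ Λ.subgroupOf N := by
      show (x : Γ) ∈ Λ
      rw [h1]
      exact y.2
    refine ⟨⟨x, h2⟩, hx, ?_⟩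
    show R (ein h ⟨x, h2⟩) = R y
    congr 1
    exact Subtype.ext h1

theorem alg_ein_top {K M : Type*} [Field K] [Ring M] [Algebra K M] (h : Λ ≤ N) (R : Λ →* M) :
    alg K (R.comp (ein h)) ⊤ = alg K R ⊤ := by
  unfold EKL.alg
  congr 1
  ext z
  constructor
  · rintro ⟨x, -, rfl⟩
    exact ⟨ein h x, Subgroup.mem_top _, rfl⟩
  · rintro ⟨y, -, rfl⟩
    obtain ⟨x, rfl⟩ := ein_surj h y
    exact ⟨x, Subgroup.mem_top _, rfl⟩

/-- fullness in `N` -/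
theorem fl_ein {K V₁ V₂ : Type} [Field K] [AddCommGroup V₁] [Module K V₁] [AddCommGroup V₂]
    [Module K V₂] (h : Λ ≤ N) (R : Λ →* Module.End K V₁ × Module.End K V₂) (G : Subgroup N) :
    Fl (R.comp (ein h)) G ↔ Fl R (G.map N.subtype) := by
  unfold EKL.Fl
  rw [alg_ein, alg_ein_top]

end res

theorem dkn (hI : St_IniN) (hS : St_Spl) (hG : St_Gen) : St_Dkn := by
  intro Γ _ k N Λ _ _ r ℓ ρ₁ ρ₂ X B h1 h2 hΛN hind hk hlen hGI hT y
  rcases Nat.eq_zero_or_pos r with hr | hr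
  · subst hr
    rw [Matrix.trace, Matrix.trace, Finset.univ_eq_empty, Finset.sum_empty, Finset.sum_empty]
  have : Nonempty (Fin r) := ⟨⟨0, hr⟩⟩
  have hir := ir_prE ρ₁ ρ₂ h1 h2
  have hd : finrank ℂ (Fin r → ℂ) ≤ r := by rw [Module.finrank_fin_fun]
  obtain ⟨X', B', a1, a2, ak, a3⟩ := hI ℂ (Fin r → ℂ) (Fin r → ℂ) Γ k N Λ (prE ρ₁ ρ₂) r ℓ X B hir
    hd hd hΛN hind hk (by omega) hGI
  obtain ⟨C, rfl⟩ := LGC.exists_mapH N B' ak
  have hlC : (SpQ.mapH N.subtype C).length = C.length := by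
    unfold SpQ.mapH
    rw [List.length_map]
  rw [LGC.E_mapH] at a3
  have a3' : Fl (prE (ρ₁.comp (ein hΛN)) (ρ₂.comp (ein hΛN))) (SpQ.E C) :=
    (fl_ein hΛN (prE ρ₁ ρ₂) (SpQ.E C)).2 a3
  have g1 : Pool.Agent.HZ.Irr (ρ₁.comp (ein hΛN)).range := by
    rw [MonoidHom.range_comp, MonoidHom.range_eq_top.2 (ein_surj hΛN), ← MonoidHom.range_eq_map]
    exact h1
  have g2 : Pool.Agent.HZ.Irr (ρ₂.comp (ein hΛN)).range := by
    rw [MonoidHom.range_comp, MonoidHom.range_eq_top.2 (ein_surj hΛN), ← MonoidHom.range_eq_map]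
    exact h2
  have hir' := ir_prE _ _ g1 g2
  have hind' : (Λ.subgroupOf N).index ≤ 2 ^ ℓ := hind
  have hM : r ≤ Mm r ℓ ∧ 19 * r ≤ Mm r ℓ := by
    unfold Mm
    omega
  obtain ⟨B'', P, b1, b2, b3, b4⟩ := hS ℂ (Fin r → ℂ) (Fin r → ℂ) N k (Λ.subgroupOf N)
    (prE (ρ₁.comp (ein hΛN)) (ρ₂.comp (ein hΛN))) r ℓ
    (3 * Mm r ℓ) C hir' hd hd hind' (le_trans (k₀_le ℓ r) (by omega)) (by omega) a3'
  have hl := b1.length_eq
  rw [List.length_append] at hl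
  have key := NLG.hdet (Λ.subgroupOf N) (ρ₁.comp (ein hΛN)) (ρ₂.comp (ein hΛN)) g1 g2
    (fun _ => True) (fun _ _ _ _ _ => ⟨trivial, trivial⟩) (2 * Mm r ℓ)
    (hG N k (Λ.subgroupOf N) r ℓ _ _ g1 g2 hr hind') B'' P trivial (fu_fl.2 b3) (fu_fl.2 b4)
    (by omega) (by omega) (fun x hx => ?_)
  · obtain ⟨x, rfl⟩ := ein_surj hΛN y
    exact key x
  · refine hT X' _ (ein hΛN x) a1 ?_
    rw [ein_coe]
    exact SpQ.fc_map N.subtype (SpQ.fc_mono (WExt.of_reach b1) 0 hx)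

end Pool.Agent.ARH
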