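import Pool.Agent.ARH.Mlt
import Pool.Agent.ARH.StN

/-!
# Campaign ARH: finite orbits, towers

Helper21, for MP_0707f5_ag.  The representation `σ j` lives on a subgroup `H j` of small index of a
normal subgroup `N j` of finite index, and `N j` contains the group of a subsurface.
-/

set_option autoImplicit false

namespace Pool.Agent.ARH

open Matrix Module Helper12.Sc
open SpQ (Hd WStep WReach WExt Good bare bd cj1 IsSpinStructure)
open LGC (It GI hl IReach Kl istd GI_append GI_hl mem_GI hl_append icj Wd Wd_root all_Blk2 thm_Fnn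
  thm_Mci thm_Wbi thm_Sim)
open LGP (F ga gb gx x0 MC NS MR stdL stdM dstd wty prj)

private theorem GI_istd' {g n k : ℕ} (τ : Fin g → ZMod k × ZMod k) :
    GI (istd (n := n) τ) = ⊤ := by
  rw [eq_top_iff, ← LGP.closure_dstd (n := n) τ]
  unfold istd
  rw [GI_append, GI_hl]
  refine sup_le_sup_left ?_ _
  rw [Subgroup.closure_le]
  intro y hy
  exact mem_GI (i := Sum.inr y) (List.mem_map.2 ⟨y, hy, rfl⟩) rfl

/-- the determination theorem for a tower in the fundamental group -/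
theorem det_twr (hD : St_Dkn) {g n k r ℓ h : ℕ} (N H : Subgroup (F g n)) [N.Normal]
    [H.FiniteIndex] (hHN : H ≤ N) (hℓ : H.relIndex N ≤ 2 ^ ℓ) (hb : 7 * Mm r ℓ ≤ h) (hh : h ≤ g)
    (hkill : ∀ i : Fin g, (i : ℕ) < h → ga i ∈ N ∧ gb i ∈ N) (τ : Fin g → ZMod k × ZMod k)
    (ρ₁ ρ₂ : H →* GL (Fin r) ℂ) (h₁ : Pool.Agent.HZ.Irr ρ₁.range)
    (h₂ : Pool.Agent.HZ.Irr ρ₂.range)
    (hT : ∀ y : H, (y : F g n) ∈ Lam (n := n) τ → (ρ₁ y : Matrix (Fin r) (Fin r) ℂ).trace =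
      (ρ₂ y : Matrix (Fin r) (Fin r) ℂ).trace) (y : H) :
    (ρ₁ y : Matrix (Fin r) (Fin r) ℂ).trace = (ρ₂ y : Matrix (Fin r) (Fin r) ℂ).trace := by
  have hlen : (dstd (n := n) τ).length = g := by simp [dstd]
  obtain ⟨B₀, hB₀⟩ : ∃ B, B = (dstd (n := n) τ).take h := ⟨_, rfl⟩
  obtain ⟨C₀, hC₀⟩ : ∃ C, C = (dstd (n := n) τ).drop h := ⟨_, rfl⟩
  have hBC : dstd (n := n) τ = B₀ ++ C₀ := by
    rw [hB₀, hC₀, List.take_append_drop]
  have hBlen : B₀.length = h := by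
    rw [hB₀, List.length_take, hlen]
    omega
  have hBK : ∀ p ∈ B₀, Kl N p := by
    intro p hp
    rw [hB₀, List.mem_take_iff_getElem] at hp
    obtain ⟨j, hj, rfl⟩ := hp
    have hj' : j < g := by omega
    have h1 := hkill ⟨j, hj'⟩ (by simp only; omega)
    unfold Kl dstd
    simpa using h1
  have hist : istd (n := n) τ = hl B₀ ++ (hl C₀ ++ (stdM g n).map Sum.inr) := by
    unfold istd
    rw [hBC, hl_append, List.append_assoc]
  obtain ⟨u, -, hu⟩ := IReach.move_block (hl B₀) (hl C₀ ++ (stdM g n).map Sum.inr)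
  rw [← hist] at hu
  have hGI : GI (List.map (icj u) (hl C₀ ++ (stdM g n).map Sum.inr) ++ hl B₀) = ⊤ := by
    rw [hu.GI_eq]
    exact GI_istd' τ
  exact hD (F g n) k N H r ℓ ρ₁ ρ₂ _ B₀ h₁ h₂ hHN hℓ hBK (by rw [hBlen]; exact hb) hGI
    (fun X' P z hr hz => hT z ⟨X', P, hu.trans hr, hz⟩) y

/-- the condition on a representation of `H` -/
def CndT {g n : ℕ} (H : Subgroup (F g n)) (r : ℕ) (σ : H →* GL (Fin r) ℂ) : Prop :=
  ∃ (N : Subgroup (F g n)) (h : ℕ), N.Normal ∧ H ≤ N ∧ h ≤ g ∧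
    (∃ θ ∈ MC g n, ∀ i : Fin g, (i : ℕ) < h → θ (ga i) ∈ N ∧ θ (gb i) ∈ N) ∧
    ((Pool.Agent.HZ.Irr σ.range ∧ ∃ ℓ, H.relIndex N ≤ 2 ^ ℓ ∧ 7 * Mm r ℓ ≤ h) ∨
      (H = N ∧ LGN.CndA (fun r => 36 * r) H h r σ))

/-- one block: finitely many characters in the class of the identity modulo `C` -/
theorem blkT (hD : St_Dkn) (g n k r : ℕ) (w : SurfaceGroup g → ZMod k) (hk : 0 < k)
    (hw : IsSpinStructure k w) (C H : Subgroup (F g n)) [C.Normal] [C.FiniteIndex] (hC : C ≤ H)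
    (σ : H →* GL (Fin r) ℂ) (hσ : CndT H r σ)
    (hfin : {z : ℂ | ∃ y : H, NS (y : F g n) ∧ w (prj g n y) = 0 ∧
      z = (σ y : Matrix (Fin r) (Fin r) ℂ).trace}.Finite)
    (τ : Fin g → ZMod k × ZMod k) :
    {χ : ↥(C.comap (1 : MulAut (F g n)).toMonoidHom) → ℂ | ∃ φ ∈ MC g n,
      φ (x0 g n) = x0 g n ∧ (∀ y, φ y * ((1 : MulAut (F g n)) y)⁻¹ ∈ C) ∧ wty w φ = τ ∧
      ∃ hφ : ∀ y ∈ C.comap (1 : MulAut (F g n)).toMonoidHom, φ y ∈ C,
      χ = fun y : ↥(C.comap (1 : MulAut (F g n)).toMonoidHom) =>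
        (σ.comp (Subgroup.inclusion hC) ⟨φ y, hφ y y.2⟩ :
          Matrix (Fin r) (Fin r) ℂ).trace}.Finite := by
  have : H.FiniteIndex := Subgroup.finiteIndex_of_le hC
  have : NeZero k := ⟨hk.ne'⟩
  obtain ⟨N, h, hN, hHN, hh, ⟨θ₀, hθ₀, hθ₀N⟩, hσ⟩ := hσ
  obtain ⟨u, hu⟩ := isConj_iff.1 hθ₀.1
  obtain ⟨θ, hθdef⟩ : ∃ θ : MulAut (F g n), θ = MulAut.conj u * θ₀ := ⟨_, rfl⟩
  have hθ : θ ∈ MC g n := by
    rw [hθdef]
    exact LGP.MC_mul (LGP.Psh_conj_mem u) hθ₀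
  have hθ0 : θ (x0 g n) = x0 g n := by
    rw [hθdef, MulAut.mul_apply, MulAut.conj_apply]
    exact hu
  have hθN : ∀ i : Fin g, (i : ℕ) < h → θ (ga i) ∈ N ∧ θ (gb i) ∈ N := by
    intro i hi
    rw [hθdef, MulAut.mul_apply, MulAut.mul_apply, MulAut.conj_apply, MulAut.conj_apply]
    exact ⟨Subgroup.Normal.conj_mem inferInstance _ (hθ₀N i hi).1 u,
      Subgroup.Normal.conj_mem inferInstance _ (hθ₀N i hi).2 u⟩
  -- the class of `θ` modulo `C`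
  have key : ∀ τ' : Fin g → ZMod k × ZMod k,
      {χ : ↥(H.comap θ.toMonoidHom) → ℂ | ∃ φ ∈ MC g n,
        φ (x0 g n) = x0 g n ∧ (∀ y, φ y * (θ y)⁻¹ ∈ C) ∧ wty w φ = τ' ∧
        ∃ hφ : ∀ y ∈ H.comap θ.toMonoidHom, φ y ∈ H,
        χ = fun y : ↥(H.comap θ.toMonoidHom) =>
          (σ ⟨φ y, hφ y y.2⟩ : Matrix (Fin r) (Fin r) ℂ).trace}.Finite := by
    intro τ'
    rcases hσ with ⟨hi, ℓ, hℓ, hb⟩ | ⟨rfl, hσ⟩
    · refine LGT.blkH thm_Fnn g n k r w C H hC θ Lam (lam_ok hw) σ hi hfin τ' ?_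
      intro ρ₁ ρ₂ i₁ i₂ hT
      have hsurj : Function.Surjective θ.toMonoidHom := θ.surjective
      have hidx : (H.comap θ.toMonoidHom).index = H.index :=
        Subgroup.index_comap_of_surjective H hsurj
      have : (H.comap θ.toMonoidHom).FiniteIndex := ⟨by
        rw [hidx]
        exact Subgroup.FiniteIndex.index_ne_zero⟩
      have hrel : (H.comap θ.toMonoidHom).relIndex (N.comap θ.toMonoidHom) = H.relIndex N := by
        rw [Subgroup.relIndex_comap, Subgroup.map_comap_eq_self_of_surjective hsurj]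
      exact det_twr hD (N.comap θ.toMonoidHom) (H.comap θ.toMonoidHom)
        (Subgroup.comap_mono hHN) (by rw [hrel]; exact hℓ) hb hh hθN τ' ρ₁ ρ₂ i₁ i₂ hT
    · have key : {χ : ↥(H.comap θ.toMonoidHom) → ℂ | ∃ φ ∈ MC g n,
          φ (x0 g n) = x0 g n ∧ (∀ y, φ y * (θ y)⁻¹ ∈ H) ∧ wty w φ = τ' ∧
          ∃ hφ : ∀ y ∈ H.comap θ.toMonoidHom, φ y ∈ H,
          χ = fun y : ↥(H.comap θ.toMonoidHom) =>
            (σ ⟨φ y, hφ y y.2⟩ : Matrix (Fin r) (Fin r) ℂ).trace}.Finite := by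
        rcases hσ with hσ | ⟨hi, hb⟩
        · exact all_Blk2 g n k r h w hw H θ hθ hθ0 hh hθN σ hσ hfin τ'
        · exact LGN.ap_Bl LGN.all_Vk thm_Fnn (thm_Wbi thm_Sim) g n k r h w hw H θ hθ0 hh hθN
            σ hi hb hfin τ'
      refine key.subset ?_
      rintro χ ⟨φ, h1, h2, h3, h4, h5, h6⟩
      exact ⟨φ, h1, h2, fun y => hC (h3 y), h4, h5, h6⟩
  -- the class of the identity
  have hmem : ∀ y : ↥(C.comap (1 : MulAut (F g n)).toMonoidHom),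
      θ⁻¹ (y : F g n) ∈ H.comap θ.toMonoidHom := by
    intro y
    show θ (θ⁻¹ (y : F g n)) ∈ H
    rw [← MulAut.mul_apply, mul_inv_cancel, MulAut.one_apply]
    exact hC y.2
  refine ((Set.finite_iUnion key).image fun (χ : ↥(H.comap θ.toMonoidHom) → ℂ)
    (y : ↥(C.comap (1 : MulAut (F g n)).toMonoidHom)) => χ ⟨θ⁻¹ (y : F g n), hmem y⟩).subset ?_
  rintro _ ⟨φ, hφ, hφ0, hφC, -, hφ', rfl⟩
  have hψH : ∀ y ∈ H.comap θ.toMonoidHom, (φ * θ) y ∈ H := by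
    intro y hy
    have h1 : φ (θ y) * ((1 : MulAut (F g n)) (θ y))⁻¹ * θ y ∈ H :=
      H.mul_mem (hC (hφC (θ y))) hy
    rwa [MulAut.one_apply, inv_mul_cancel_right] at h1
  refine ⟨fun y : ↥(H.comap θ.toMonoidHom) =>
    (σ ⟨(φ * θ) y, hψH y y.2⟩ : Matrix (Fin r) (Fin r) ℂ).trace, ?_, ?_⟩
  · refine Set.mem_iUnion.2 ⟨wty w (φ * θ), φ * θ, LGP.MC_mul hφ hθ, ?_, ?_, rfl, hψH, rfl⟩
    · rw [MulAut.mul_apply, hθ0, hφ0]
    · intro y
      exact hφC (θ y)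
  · funext y
    have e0 : θ (θ⁻¹ (y : F g n)) = y := by
      rw [← MulAut.mul_apply, mul_inv_cancel, MulAut.one_apply]
    have e : (φ * θ) (θ⁻¹ (y : F g n)) = φ y := by
      rw [MulAut.mul_apply, e0]
    show (σ ⟨(φ * θ) (θ⁻¹ (y : F g n)), _⟩ : Matrix (Fin r) (Fin r) ℂ).trace =
      (σ (Subgroup.inclusion hC ⟨φ y, _⟩) : Matrix (Fin r) (Fin r) ℂ).trace
    congr 3
    exact Subtype.ext e

/-- **Theorem D** for towers -/
theorem thmT (hD : St_Dkn) (g n k R m : ℕ) (w : SurfaceGroup g → ZMod k) (hk : 0 < k)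
    (hw : IsSpinStructure k w) (C : Subgroup (F g n)) [C.FiniteIndex]
    (H : Fin m → Subgroup (F g n)) (hC : ∀ j, C ≤ H j)
    (ρ : F g n →* GL (Fin R) ℂ) (r : Fin m → ℕ) (σ : ∀ j, H j →* GL (Fin (r j)) ℂ)
    (hσ : ∀ j, CndT (H j) (r j) (σ j))
    (h1 : ∃ d, ∀ (y : C) (z : ℂ), (ρ (y : F g n) : Matrix (Fin R) (Fin R) ℂ).charpoly.IsRoot z →
      z ∈ Wd d {u | ∃ j,
        (σ j ⟨y, hC j y.2⟩ : Matrix (Fin (r j)) (Fin (r j)) ℂ).charpoly.IsRoot u})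
    (h2 : ((∀ (j : Fin m) (y : H j), NS (y : F g n) → w (prj g n y) = 0 →
        Pool.Agent.HZ.Quasi (ρ (y : F g n))) ∧
        ∃ d, ∀ (y : C) (j : Fin m) (z : ℂ),
          (σ j ⟨y, hC j y.2⟩ : Matrix (Fin (r j)) (Fin (r j)) ℂ).charpoly.IsRoot z →
          z ∈ Wd d {u | (ρ (y : F g n) : Matrix (Fin R) (Fin R) ℂ).charpoly.IsRoot u}) ∨
      ∀ j, {z : ℂ | ∃ y : H j, NS (y : F g n) ∧ w (prj g n y) = 0 ∧
        z = (σ j y : Matrix (Fin (r j)) (Fin (r j)) ℂ).trace}.Finite) :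
    {χ : F g n → ℂ | ∃ φ ∈ MC g n,
      χ = fun y => (ρ (φ y) : Matrix (Fin R) (Fin R) ℂ).trace}.Finite := by
  have hfi : ∀ j, (H j).FiniteIndex := fun j => Subgroup.finiteIndex_of_le (hC j)
  have hfin : ∀ j, {z : ℂ | ∃ y : H j, NS (y : F g n) ∧ w (prj g n y) = 0 ∧
      z = (σ j y : Matrix (Fin (r j)) (Fin (r j)) ℂ).trace}.Finite := by
    rcases h2 with ⟨h2, d, h3⟩ | h2
    · intro j
      refine (finite_traces (H j) (σ j) {y | NS (y : F g n) ∧ w (prj g n y) = 0}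
        (fun y hy => quasi_of_words (hC j) ρ (σ j) (fun y z hz => h3 y j z hz) y
          (h2 j y hy.1 hy.2))).subset ?_
      rintro z ⟨y, hy1, hy2, rfl⟩
      exact ⟨y, ⟨hy1, hy2⟩, rfl⟩
    · exact h2
  obtain ⟨d, h1⟩ := h1
  have hC' : ∀ j, C.normalCore ≤ H j := fun j => C.normalCore_le.trans (hC j)
  exact LGT.todH thm_Fnn thm_Mci g n k R m d w hk C.normalCore C.normalCore le_rfl 1
    LGP.MC_one rfl ρ r (fun j => (σ j).comp (Subgroup.inclusion (hC' j)))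
    (fun y z hz => h1 ⟨y, C.normalCore_le y.2⟩ z hz)
    fun j τ => blkT hD g n k (r j) w hk hw C.normalCore (H j) (hC' j) (σ j) (hσ j) (hfin j) τ

end Pool.Agent.ARH
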